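import Mathlib

set_option autoImplicit false

/-! A Bourgain–Delbaen type sum of finite dimensional Hilbert spaces: the coordinate functionals
`G n` on the sequences `d`, the extension estimate and the upper `2`-estimate. -/

namespace Pool.Agent.R268.LInf

open Finset

/-- Two linear isometries with orthogonal ranges. -/
structure Pair (H : Type) [NormedAddCommGroup H] [InnerProductSpace ℝ H] where
  J0 : H →ₗᵢ[ℝ] H
  J1 : H →ₗᵢ[ℝ] H
  orth : ∀ u v, inner ℝ (J0 u) (J1 v) = 0

/-- The combinatorial data: `nd n = none` is the start of a chain, `nd n = some (ξ, η)` continues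
the chain of `ξ` by an evaluation at `η`. -/
structure Sys where
  nd : ℕ → Option (ℕ × ℕ)
  age : ℕ → ℕ
  st : ℕ → ℕ
  lt : ∀ n ξ η, nd n = some (ξ, η) → ξ < n ∧ η < n
  h0 : ∀ n, nd n = none → age n = 1 ∧ st n = n
  h1 : ∀ n ξ η, nd n = some (ξ, η) → age n = age ξ + 1 ∧ st n = st ξ ∧ age ξ ≤ st ξ
  inf0 : ∀ M, ∃ n, M ≤ n ∧ nd n = none
  inf1 : ∀ ξ η M, age ξ ≤ st ξ → ∃ n, M ≤ n ∧ nd n = some (ξ, η)

variable {H : Type} [NormedAddCommGroup H] [InnerProductSpace ℝ H]

/-- `cut p d = d · 1_{[p, ∞)}`. -/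
def cut (p : ℕ) : (ℕ → H) →ₗ[ℝ] (ℕ → H) where
  toFun d m := if p ≤ m then d m else 0
  map_add' x y := by funext m; by_cases h : p ≤ m <;> simp [h]
  map_smul' c x := by funext m; by_cases h : p ≤ m <;> simp [h]

/-- `low p d = d · 1_{[0, p)}`. -/
def low (p : ℕ) : (ℕ → H) →ₗ[ℝ] (ℕ → H) where
  toFun d m := if m < p then d m else 0
  map_add' x y := by funext m; by_cases h : m < p <;> simp [h]
  map_smul' c x := by funext m; by_cases h : m < p <;> simp [h]

lemma cut_apply (p : ℕ) (d : ℕ → H) (m : ℕ) : cut p d m = if p ≤ m then d m else 0 := rfl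
lemma low_apply (p : ℕ) (d : ℕ → H) (m : ℕ) : low p d m = if m < p then d m else 0 := rfl

lemma cut_eq_sub (p : ℕ) (d : ℕ → H) : cut p d = d - low p d := by
  funext m
  rw [Pi.sub_apply, cut_apply, low_apply]
  by_cases h : p ≤ m
  · rw [if_pos h, if_neg (by omega), sub_zero]
  · rw [if_neg h, if_pos (by omega), sub_self]

variable (S : Sys) (P : Pair H)

/-- The coordinates. -/
noncomputable def G (n : ℕ) : (ℕ → H) →ₗ[ℝ] H :=
  match h : S.nd n with
  | none => LinearMap.proj n
  | some (ξ, η) => LinearMap.proj n + (P.J0.toLinearMap ∘ₗ G ξ +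
      (1 / 4 : ℝ) • (P.J1.toLinearMap ∘ₗ (G η ∘ₗ cut (ξ + 1))))
termination_by n
decreasing_by
  · exact (S.lt n ξ η h).1
  · exact (S.lt n ξ η h).2

lemma G_none {n : ℕ} (h : S.nd n = none) (d : ℕ → H) : G S P n d = d n := by
  rw [G]
  split
  · rfl
  · rename_i heq; rw [h] at heq; exact absurd heq (by simp)

lemma G_some {n ξ η : ℕ} (h : S.nd n = some (ξ, η)) (d : ℕ → H) :
    G S P n d = d n + (P.J0 (G S P ξ d) + (1 / 4 : ℝ) • P.J1 (G S P η (cut (ξ + 1) d))) := by
  rw [G]
  split
  · rename_i heq; rw [h] at heq; exact absurd heq (by simp)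
  · rename_i ξ' η' heq
    rw [h] at heq
    obtain ⟨rfl, rfl⟩ : ξ = ξ' ∧ η = η' := by simpa using heq
    rfl

/-- The part of `G n` given by the values of `d` at the chain nodes. -/
noncomputable def D (n : ℕ) : (ℕ → H) →ₗ[ℝ] H :=
  match h : S.nd n with
  | none => LinearMap.proj n
  | some (ξ, _) => LinearMap.proj n + P.J0.toLinearMap ∘ₗ D ξ
termination_by n
decreasing_by
  · exact (S.lt n ξ _ h).1

lemma D_none {n : ℕ} (h : S.nd n = none) (d : ℕ → H) : D S P n d = d n := by
  rw [D]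
  split
  · rfl
  · rename_i heq; rw [h] at heq; exact absurd heq (by simp)

lemma D_some {n ξ η : ℕ} (h : S.nd n = some (ξ, η)) (d : ℕ → H) :
    D S P n d = d n + P.J0 (D S P ξ d) := by
  rw [D]
  split
  · rename_i heq; rw [h] at heq; exact absurd heq (by simp)
  · rename_i ξ' η' heq
    rw [h] at heq
    obtain ⟨rfl, rfl⟩ : ξ = ξ' ∧ η = η' := by simpa using heq
    rfl

/-- The orthogonal part of `G n`. -/
noncomputable def B (n : ℕ) : (ℕ → H) →ₗ[ℝ] H :=
  match h : S.nd n with
  | none => 0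
  | some (ξ, η) => P.J0.toLinearMap ∘ₗ B ξ +
      (1 / 4 : ℝ) • (P.J1.toLinearMap ∘ₗ (G S P η ∘ₗ cut (ξ + 1)))
termination_by n
decreasing_by
  · exact (S.lt n ξ η h).1

lemma B_none {n : ℕ} (h : S.nd n = none) (d : ℕ → H) : B S P n d = 0 := by
  rw [B]
  split
  · rfl
  · rename_i heq; rw [h] at heq; exact absurd heq (by simp)

lemma B_some {n ξ η : ℕ} (h : S.nd n = some (ξ, η)) (d : ℕ → H) :
    B S P n d = P.J0 (B S P ξ d) + (1 / 4 : ℝ) • P.J1 (G S P η (cut (ξ + 1) d)) := by
  rw [B]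
  split
  · rename_i heq; rw [h] at heq; exact absurd heq (by simp)
  · rename_i ξ' η' heq
    rw [h] at heq
    obtain ⟨rfl, rfl⟩ : ξ = ξ' ∧ η = η' := by simpa using heq
    rfl

variable {S P}

lemma G_eq_add (n : ℕ) (d : ℕ → H) : G S P n d = D S P n d + B S P n d := by
  induction n using Nat.strong_induction_on with
  | _ n ih =>
    cases h : S.nd n with
    | none => rw [G_none S P h, D_none S P h, B_none S P h, add_zero]
    | some x =>
      obtain ⟨ξ, η⟩ := x
      rw [G_some S P h, D_some S P h, B_some S P h, ih ξ (S.lt n ξ η h).1, map_add]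
      abel

lemma G_zero (n : ℕ) : ∀ d : ℕ → H, (∀ m, m ≤ n → d m = 0) → G S P n d = 0 := by
  induction n using Nat.strong_induction_on with
  | _ n ih =>
    intro d hd
    cases h : S.nd n with
    | none => rw [G_none S P h, hd n le_rfl]
    | some x =>
      obtain ⟨ξ, η⟩ := x
      have h1 := S.lt n ξ η h
      rw [G_some S P h, hd n le_rfl, ih ξ h1.1 d (fun m hm => hd m (by omega)),
        ih η h1.2 (cut (ξ + 1) d) (fun m hm => by rw [cut_apply, hd m (by omega)]; simp)]
      simp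

lemma G_congr {n : ℕ} {d d' : ℕ → H} (h : ∀ m, m ≤ n → d m = d' m) : G S P n d = G S P n d' := by
  have := G_zero (S := S) (P := P) n (d - d') (fun m hm => by rw [Pi.sub_apply, h m hm, sub_self])
  rw [map_sub, sub_eq_zero] at this
  exact this

lemma norm_pair_sq (u v : H) (c : ℝ) :
    ‖P.J0 u + c • P.J1 v‖ ^ 2 = ‖u‖ ^ 2 + c ^ 2 * ‖v‖ ^ 2 := by
  have h := norm_add_sq_real (P.J0 u) (c • P.J1 v)
  rw [inner_smul_right, P.orth] at h
  rw [h, norm_smul, P.J0.norm_map, P.J1.norm_map, mul_pow, Real.norm_eq_abs, sq_abs]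
  ring

/-- The extension estimate. -/
lemma ext_bound (n : ℕ) : ∀ (N : ℕ) (d : ℕ → H) (M : ℝ), (∀ m, N ≤ m → d m = 0) →
    (∀ m, m < N → ‖G S P m d‖ ≤ M) → 0 ≤ M → ‖G S P n d‖ ≤ 2 * M := by
  induction n using Nat.strong_induction_on with
  | _ n ih =>
    intro N d M hd hM hM0
    by_cases hn : n < N
    · exact (hM n hn).trans (by linarith)
    push Not at hn
    cases h : S.nd n with
    | none => rw [G_none S P h, hd n hn, norm_zero]; linarith
    | some x =>
      obtain ⟨ξ, η⟩ := x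
      obtain ⟨hξ, hη⟩ := S.lt n ξ η h
      rw [G_some S P h, hd n hn, zero_add]
      by_cases hξN : ξ < N
      · have h1 : ‖G S P ξ d‖ ≤ M := hM ξ hξN
        have h2 : ‖G S P η (cut (ξ + 1) d)‖ ≤ 4 * M := by
          rw [cut_eq_sub, map_sub]
          have h3 : ‖G S P η d‖ ≤ 2 * M := ih η hη N d M hd hM hM0
          have h4 : ‖G S P η (low (ξ + 1) d)‖ ≤ 2 * M := by
            refine ih η hη (ξ + 1) (low (ξ + 1) d) M (fun m hm => ?_) (fun m hm => ?_) hM0
            · rw [low_apply, if_neg (by omega)]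
            · have : G S P m (low (ξ + 1) d) = G S P m d :=
                G_congr (fun m' hm' => by rw [low_apply, if_pos (by omega)])
              rw [this]
              exact hM m (by omega)
          calc ‖G S P η d - G S P η (low (ξ + 1) d)‖
              ≤ ‖G S P η d‖ + ‖G S P η (low (ξ + 1) d)‖ := norm_sub_le _ _
            _ ≤ 4 * M := by linarith
        have h5 := norm_pair_sq (P := P) (G S P ξ d) (G S P η (cut (ξ + 1) d)) (1 / 4)
        have h6 : ‖G S P ξ d‖ ^ 2 ≤ M ^ 2 := pow_le_pow_left₀ (norm_nonneg _) h1 2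
        have h7 : ‖G S P η (cut (ξ + 1) d)‖ ^ 2 ≤ (4 * M) ^ 2 :=
          pow_le_pow_left₀ (norm_nonneg _) h2 2
        refine le_of_sq_le_sq ?_ (by linarith)
        rw [h5]
        nlinarith
      · have h1 : cut (ξ + 1) d = 0 := by
          funext m
          rw [cut_apply]
          split_ifs with hm
          · exact hd m (by omega)
          · rfl
        rw [h1]
        simp only [map_zero, smul_zero, add_zero, LinearIsometry.norm_map]
        exact ih ξ hξ N d M hd hM hM0

/-- The `d` coordinates are bounded. -/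
lemma d_bound {d : ℕ → H} {M : ℝ} (hM : ∀ n, ‖G S P n d‖ ≤ M) (n : ℕ) : ‖d n‖ ≤ 4 * M := by
  have hM0 : 0 ≤ M := (norm_nonneg _).trans (hM 0)
  have key : ∀ p, ‖G S P n (low p d)‖ ≤ 2 * M := by
    intro p
    refine ext_bound n p (low p d) M (fun m hm => by rw [low_apply, if_neg (by omega)])
      (fun m hm => ?_) hM0
    have : G S P m (low p d) = G S P m d :=
      G_congr (fun m' hm' => by rw [low_apply, if_pos (by omega)])
    rw [this]; exact hM m
  have h1 : G S P n (cut n (low (n + 1) d)) = d n := by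
    set z : ℕ → H := cut n (low (n + 1) d) with hz
    have hz0 : ∀ m, m < n → z m = 0 := fun m hm => by rw [hz, cut_apply, if_neg (by omega)]
    have hzn : z n = d n := by
      rw [hz, cut_apply, if_pos le_rfl, low_apply, if_pos (by omega)]
    cases h : S.nd n with
    | none => rw [G_none S P h, hzn]
    | some x =>
      obtain ⟨ξ, η⟩ := x
      obtain ⟨hξ, hη⟩ := S.lt n ξ η h
      rw [G_some S P h, hzn, G_zero ξ z (fun m hm => hz0 m (by omega)),
        G_zero η (cut (ξ + 1) z) (fun m hm => by rw [cut_apply, hz0 m (by omega)]; simp)]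
      simp
  have h2 : cut n (low (n + 1) d) = low (n + 1) d - low n d := by
    rw [cut_eq_sub]
    congr 1
    funext m
    rw [low_apply, low_apply, low_apply]
    by_cases h : m < n
    · rw [if_pos h, if_pos (by omega), if_pos h]
    · rw [if_neg h, if_neg h]
  rw [← h1, h2, map_sub]
  calc ‖G S P n (low (n + 1) d) - G S P n (low n d)‖
      ≤ ‖G S P n (low (n + 1) d)‖ + ‖G S P n (low n d)‖ := norm_sub_le _ _
    _ ≤ 4 * M := by linarith [key (n + 1), key n]

lemma D_le {ε : ℝ} (n : ℕ) (d : ℕ → H) (hd : ∀ m, ‖d m‖ ≤ ε) :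
    ‖D S P n d‖ ≤ S.age n * ε := by
  induction n using Nat.strong_induction_on with
  | _ n ih =>
    cases h : S.nd n with
    | none =>
      rw [D_none S P h, (S.h0 n h).1]
      simpa using hd n
    | some x =>
      obtain ⟨ξ, η⟩ := x
      rw [D_some S P h, (S.h1 n ξ η h).1]
      have h1 := ih ξ (S.lt n ξ η h).1
      calc ‖d n + P.J0 (D S P ξ d)‖ ≤ ‖d n‖ + ‖P.J0 (D S P ξ d)‖ := norm_add_le _ _
        _ ≤ ε + S.age ξ * ε := by rw [P.J0.norm_map]; exact add_le_add (hd n) h1
        _ = ((S.age ξ + 1 : ℕ) : ℝ) * ε := by push_cast; ring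

lemma st_le (n : ℕ) : S.st n ≤ n := by
  induction n using Nat.strong_induction_on with
  | _ n ih =>
    cases h : S.nd n with
    | none => rw [(S.h0 n h).2]
    | some x =>
      obtain ⟨ξ, η⟩ := x
      have := ih ξ (S.lt n ξ η h).1
      rw [(S.h1 n ξ η h).2.1]
      have := (S.lt n ξ η h).1
      omega

lemma age_le (n : ℕ) : S.age n ≤ S.st n + 1 := by
  cases h : S.nd n with
  | none => rw [(S.h0 n h).1]; omega
  | some x =>
    obtain ⟨ξ, η⟩ := x
    obtain ⟨h1, h2, h3⟩ := S.h1 n ξ η h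
    omega

lemma D_zero (n : ℕ) (d : ℕ → H) (hd : ∀ m, S.st n ≤ m → d m = 0) : D S P n d = 0 := by
  induction n using Nat.strong_induction_on with
  | _ n ih =>
    cases h : S.nd n with
    | none =>
      rw [D_none S P h]
      exact hd n (st_le n)
    | some x =>
      obtain ⟨ξ, η⟩ := x
      rw [D_some S P h, hd n (st_le n), ih ξ (S.lt n ξ η h).1, map_zero, add_zero]
      intro m hm
      exact hd m (by rw [(S.h1 n ξ η h).2.1]; exact hm)

lemma norm_sum_sq_of_single {ι : Type} [DecidableEq ι] (s : Finset ι) (f : ι → H)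
    (h : ∀ i ∈ s, ∀ j ∈ s, i ≠ j → f i = 0 ∨ f j = 0) :
    ‖∑ i ∈ s, f i‖ ^ 2 ≤ ∑ i ∈ s, ‖f i‖ ^ 2 := by
  by_cases h0 : ∃ i ∈ s, f i ≠ 0
  · obtain ⟨i, hi, hfi⟩ := h0
    have h1 : ∑ j ∈ s, f j = f i := by
      refine Finset.sum_eq_single_of_mem i hi (fun j hj hne => ?_)
      rcases h i hi j hj (Ne.symm hne) with h2 | h2
      · exact absurd h2 hfi
      · exact h2
    rw [h1]
    exact Finset.single_le_sum (f := fun i => ‖f i‖ ^ 2) (fun j _ => by positivity) hi
  · push Not at h0
    rw [Finset.sum_eq_zero h0]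
    simp
    exact Finset.sum_nonneg fun i _ => by positivity

end Pool.Agent.R268.LInf
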