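import Mathlib
import Pool.Agent.R268.LInf.Core

set_option autoImplicit false

/-! Existence of the combinatorial data and of the pair of isometries. -/

namespace Pool.Agent.R268.LInf

open Finset

/-- every value is taken infinitely often -/
def raw (n : ℕ) : Option (ℕ × ℕ) := Denumerable.ofNat (Option (ℕ × ℕ)) (Nat.unpair n).1

lemma raw_pair (x : Option (ℕ × ℕ)) (M : ℕ) : raw (Nat.pair (Encodable.encode x) M) = x := by
  simp [raw]

def info (n : ℕ) : Option (ℕ × ℕ) × ℕ × ℕ :=
  match raw n with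
  | none => (none, 1, n)
  | some (ξ, η) =>
    if h : ξ < n ∧ η < n then
      if (info ξ).2.1 ≤ (info ξ).2.2 then (some (ξ, η), (info ξ).2.1 + 1, (info ξ).2.2)
      else (none, 1, n)
    else (none, 1, n)
termination_by n
decreasing_by all_goals exact h.1

lemma info_none {n : ℕ} (h : raw n = none) : info n = (none, 1, n) := by
  rw [info, h]

lemma info_some {n ξ η : ℕ} (h : raw n = some (ξ, η)) (h1 : ξ < n ∧ η < n)
    (h2 : (info ξ).2.1 ≤ (info ξ).2.2) :
    info n = (some (ξ, η), (info ξ).2.1 + 1, (info ξ).2.2) := by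
  rw [info, h]
  simp only [h1, and_self, h2, dite_true, if_true]

lemma info_cases (n : ℕ) : info n = (none, 1, n) ∨ ∃ ξ η, ξ < n ∧ η < n ∧
    (info ξ).2.1 ≤ (info ξ).2.2 ∧ info n = (some (ξ, η), (info ξ).2.1 + 1, (info ξ).2.2) := by
  cases h : raw n with
  | none => left; exact info_none h
  | some x =>
    obtain ⟨ξ, η⟩ := x
    by_cases h1 : ξ < n ∧ η < n
    · by_cases h2 : (info ξ).2.1 ≤ (info ξ).2.2
      · right
        exact ⟨ξ, η, h1.1, h1.2, h2, info_some h h1 h2⟩
      · left
        rw [info, h]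
        simp only [h1, and_self, h2, dite_true, if_false]
    · left
      rw [info, h]
      simp only [h1, dite_false]

/-- the combinatorial data -/
def sys : Sys where
  nd n := (info n).1
  age n := (info n).2.1
  st n := (info n).2.2
  lt n ξ η h := by
    rcases info_cases n with h1 | ⟨ξ', η', h1, h2, _, h4⟩
    · rw [h1] at h; simp at h
    · rw [h4] at h
      simp only [Option.some.injEq, Prod.mk.injEq] at h
      obtain ⟨rfl, rfl⟩ := h
      exact ⟨h1, h2⟩
  h0 n h := by
    rcases info_cases n with h1 | ⟨ξ', η', h1, h2, _, h4⟩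
    · rw [h1]; exact ⟨rfl, rfl⟩
    · rw [h4] at h; simp at h
  h1 n ξ η h := by
    rcases info_cases n with h1 | ⟨ξ', η', h1, h2, h3, h4⟩
    · rw [h1] at h; simp at h
    · rw [h4] at h ⊢
      simp only [Option.some.injEq, Prod.mk.injEq] at h
      obtain ⟨rfl, rfl⟩ := h
      exact ⟨rfl, rfl, h3⟩
  inf0 M := ⟨Nat.pair (Encodable.encode (none : Option (ℕ × ℕ))) M, Nat.right_le_pair _ _, by
    rw [info_none (raw_pair _ _)]⟩
  inf1 ξ η M h := by
    refine ⟨Nat.pair (Encodable.encode (some (ξ, η))) (M + ξ + η + 1), ?_, ?_⟩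
    · exact le_trans (by omega) (Nat.right_le_pair _ _)
    · have h0 := Nat.right_le_pair (Encodable.encode (some (ξ, η))) (M + ξ + η + 1)
      rw [info_some (raw_pair _ _) ⟨by omega, by omega⟩ h]

/-- The Hilbert space. -/
abbrev HH : Type := lp (fun _ : ℕ => ℝ) 2

/-- extension by zero along `φ` -/
noncomputable def exf (φ : ℕ → ℕ) (g : ℕ → ℝ) : ℕ → ℝ := Function.extend φ g 0

lemma exf_apply {φ : ℕ → ℕ} (hφ : Function.Injective φ) (g : ℕ → ℝ) (a : ℕ) :
    exf φ g (φ a) = g a := hφ.extend_apply _ _ _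

lemma exf_not {φ : ℕ → ℕ} (g : ℕ → ℝ) {n : ℕ} (h : ¬ ∃ a, φ a = n) : exf φ g n = 0 :=
  Function.extend_apply' _ _ _ h

lemma memlp_exf {φ : ℕ → ℕ} (hφ : Function.Injective φ) (f : HH) :
    Memℓp (exf φ (fun n => f n)) 2 := by
  have h1 : (0 : ℝ) < (2 : ENNReal).toReal := by norm_num
  rw [memℓp_gen_iff h1]
  have h2 := (lp.memℓp f).summable h1
  rw [← hφ.summable_iff]
  · convert h2 using 1
    funext i
    simp only [Function.comp]
    rw [exf_apply hφ]
  · intro x hx
    rw [exf_not _ (by simpa using hx)]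
    norm_num

noncomputable def extL {φ : ℕ → ℕ} (hφ : Function.Injective φ) : HH →ₗᵢ[ℝ] HH where
  toFun f := ⟨exf φ (fun n => f n), memlp_exf hφ f⟩
  map_add' f g := by
    ext n
    change exf φ (fun n => f n + g n) n = exf φ (fun n => f n) n + exf φ (fun n => g n) n
    by_cases h : ∃ a, φ a = n
    · obtain ⟨a, rfl⟩ := h
      rw [exf_apply hφ, exf_apply hφ, exf_apply hφ]
    · rw [exf_not _ h, exf_not _ h, exf_not _ h, add_zero]
  map_smul' c f := by
    ext n
    change exf φ (fun n => c * f n) n = c * exf φ (fun n => f n) n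
    by_cases h : ∃ a, φ a = n
    · obtain ⟨a, rfl⟩ := h
      rw [exf_apply hφ, exf_apply hφ]
    · rw [exf_not _ h, exf_not _ h, mul_zero]
  norm_map' f := by
    have h1 : (0 : ℝ) < (2 : ENNReal).toReal := by norm_num
    rw [lp.norm_eq_tsum_rpow h1, lp.norm_eq_tsum_rpow h1]
    congr 1
    change ∑' i, ‖exf φ (fun n => f n) i‖ ^ (2 : ENNReal).toReal =
      ∑' i, ‖f i‖ ^ (2 : ENNReal).toReal
    rw [← hφ.tsum_eq]
    · refine tsum_congr fun i => ?_
      rw [exf_apply hφ]
    · intro x hx
      by_contra h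
      apply hx
      change ‖exf φ (fun n => f n) x‖ ^ (2 : ENNReal).toReal = 0
      rw [exf_not _ (by simpa using h)]
      norm_num

lemma extL_apply {φ : ℕ → ℕ} (hφ : Function.Injective φ) (f : HH) (n : ℕ) :
    (extL hφ f : ℕ → ℝ) n = exf φ (fun n => f n) n := rfl

lemma inj0 : Function.Injective (fun n : ℕ => 2 * n) := fun a b h => by simpa using h
lemma inj1 : Function.Injective (fun n : ℕ => 2 * n + 1) := fun a b h => by simpa using h

noncomputable def pair : Pair HH where
  J0 := extL inj0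
  J1 := extL inj1
  orth u v := by
    rw [lp.inner_eq_tsum]
    have : ∀ i, inner ℝ (extL inj0 u i) (extL inj1 v i) = 0 := by
      intro i
      rw [extL_apply, extL_apply]
      by_cases h : ∃ a, (fun n : ℕ => 2 * n) a = i
      · have h' : ¬ ∃ a, (fun n : ℕ => 2 * n + 1) a = i := by
          rintro ⟨b, hb⟩
          obtain ⟨a, ha⟩ := h
          dsimp only at ha hb
          omega
        rw [exf_not _ h']
        simp
      · rw [exf_not _ h]
        simp
    simp only [this, tsum_zero]

noncomputable def e0 : HH := lp.single 2 0 (1 : ℝ)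

lemma e0_ne : e0 ≠ 0 := by
  intro h
  have h1 : e0 0 = 0 := by rw [h]; rfl
  rw [e0, lp.single_apply_self] at h1
  exact one_ne_zero h1

end Pool.Agent.R268.LInf
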