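import Mathlib
import Pool.Agent.R268.LInf.Core

set_option autoImplicit false

/-! The upper `2`-estimate for rapidly increasing blocks. -/

namespace Pool.Agent.R268.LInf

open Finset

variable {H : Type} [NormedAddCommGroup H] [InnerProductSpace ℝ H] {S : Sys} {P : Pair H}

lemma G_sum (n : ℕ) (s : Finset ℕ) (a : ℕ → ℝ) (v : ℕ → ℕ → H) :
    G S P n (∑ k ∈ s, a k • v k) = ∑ k ∈ s, a k • G S P n (v k) := by
  rw [map_sum]; simp only [map_smul]

lemma D_sum (n : ℕ) (s : Finset ℕ) (a : ℕ → ℝ) (v : ℕ → ℕ → H) :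
    D S P n (∑ k ∈ s, a k • v k) = ∑ k ∈ s, a k • D S P n (v k) := by
  rw [map_sum]; simp only [map_smul]

/-- A family of blocks. -/
structure Blocks (S : Sys) (P : Pair H) (K : Finset ℕ) (p q : ℕ → ℕ) (v : ℕ → ℕ → H) (θ : ℝ) :
    Prop where
  ord : ∀ i ∈ K, ∀ j ∈ K, i < j → q i ≤ p j
  supp : ∀ k ∈ K, ∀ m, (m < p k ∨ q k ≤ m) → v k m = 0
  norm : ∀ k ∈ K, ∀ n, ‖G S P n (v k)‖ ≤ 1
  small : ∀ k ∈ K, ∀ m, (p k : ℝ) * ‖v k m‖ ≤ θ
  pos : 0 ≤ θ
  card : θ ^ 2 * K.card ≤ 1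

lemma Blocks.mono {K K' : Finset ℕ} {p q : ℕ → ℕ} {v : ℕ → ℕ → H} {θ : ℝ}
    (hB : Blocks S P K p q v θ) (h : K' ⊆ K) : Blocks S P K' p q v θ where
  ord i hi j hj := hB.ord i (h hi) j (h hj)
  supp k hk := hB.supp k (h hk)
  norm k hk := hB.norm k (h hk)
  small k hk := hB.small k (h hk)
  pos := hB.pos
  card := by
    refine le_trans ?_ hB.card
    have : (K'.card : ℝ) ≤ K.card := by exact_mod_cast Finset.card_le_card h
    exact mul_le_mul_of_nonneg_left this (sq_nonneg _)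

lemma step_B {K : Finset ℕ} {p q : ℕ → ℕ} {v : ℕ → ℕ → H} {θ : ℝ}
    (hB : Blocks S P K p q v θ) (a : ℕ → ℝ) {η c n : ℕ} (hη : η < n)
    (hI : ∀ K' ⊆ K, ‖G S P η (∑ k ∈ K', a k • v k)‖ ^ 2 ≤ 64 * ∑ k ∈ K', (a k) ^ 2) :
    ‖G S P η (cut c (∑ k ∈ K, a k • v k))‖ ^ 2 ≤
      128 * ∑ k ∈ K with (c ≤ p k ∧ p k ≤ n), (a k) ^ 2 +
      2 * ∑ k ∈ K, (a k) ^ 2 * ‖G S P η (cut c (v k))‖ ^ 2 := by
  classical
  set K1 := K.filter (fun k => c ≤ p k ∧ p k ≤ n) with hK1
  set K2 := K.filter (fun k => ¬ c ≤ p k) with hK2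
  have h1 : G S P η (cut c (∑ k ∈ K, a k • v k)) =
      G S P η (∑ k ∈ K1, a k • v k) + ∑ k ∈ K2, a k • G S P η (cut c (v k)) := by
    rw [map_sum, map_sum, G_sum]
    rw [← Finset.sum_filter_add_sum_filter_not K (fun k => c ≤ p k)]
    congr 1
    · have h2 : ∀ k ∈ K.filter (fun k => c ≤ p k), G S P η (cut c (a k • v k)) =
          a k • G S P η (v k) := by
        intro k hk
        rw [Finset.mem_filter] at hk
        rw [map_smul, map_smul]
        congr 2
        funext m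
        rw [cut_apply]
        split_ifs with hm
        · rfl
        · exact (hB.supp k hk.1 m (Or.inl (by omega))).symm
      rw [Finset.sum_congr rfl h2]
      symm
      apply Finset.sum_subset
      · intro k hk
        rw [hK1, Finset.mem_filter] at hk
        rw [Finset.mem_filter]
        exact ⟨hk.1, hk.2.1⟩
      · intro k hk hk'
        rw [Finset.mem_filter] at hk
        rw [hK1, Finset.mem_filter] at hk'
        have h3 : n < p k := by
          by_contra h4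
          exact hk' ⟨hk.1, hk.2, by omega⟩
        rw [G_zero η (v k) (fun m hm => hB.supp k hk.1 m (Or.inl (by omega))), smul_zero]
    · refine Finset.sum_congr rfl fun k _ => ?_
      rw [map_smul, map_smul]
  have h2 : ‖∑ k ∈ K2, a k • G S P η (cut c (v k))‖ ^ 2 ≤
      ∑ k ∈ K2, ‖a k • G S P η (cut c (v k))‖ ^ 2 := by
    apply norm_sum_sq_of_single
    intro i hi j hj hij
    rw [hK2, Finset.mem_filter] at hi hj
    have key : ∀ k ∈ K, q k ≤ c → a k • G S P η (cut c (v k)) = 0 := by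
      intro k hk hq
      have : cut c (v k) = 0 := by
        funext m
        rw [cut_apply]
        split_ifs with hm
        · exact hB.supp k hk m (Or.inr (by omega))
        · rfl
      rw [this, map_zero, smul_zero]
    rcases lt_or_gt_of_ne hij with h3 | h3
    · left
      refine key i hi.1 ?_
      have := hB.ord i hi.1 j hj.1 h3
      omega
    · right
      refine key j hj.1 ?_
      have := hB.ord j hj.1 i hi.1 h3
      omega
  have h3 : ∑ k ∈ K2, ‖a k • G S P η (cut c (v k))‖ ^ 2 ≤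
      ∑ k ∈ K, (a k) ^ 2 * ‖G S P η (cut c (v k))‖ ^ 2 := by
    have h4 : ∀ k, ‖a k • G S P η (cut c (v k))‖ ^ 2 =
        (a k) ^ 2 * ‖G S P η (cut c (v k))‖ ^ 2 := by
      intro k; rw [norm_smul, mul_pow, Real.norm_eq_abs, sq_abs]
    simp only [h4]
    exact Finset.sum_le_sum_of_subset_of_nonneg (Finset.filter_subset _ _)
      (fun k _ _ => by positivity)
  have h4 := hI K1 (Finset.filter_subset _ _)
  rw [h1]
  have h5 : ‖G S P η (∑ k ∈ K1, a k • v k) + ∑ k ∈ K2, a k • G S P η (cut c (v k))‖ ^ 2 ≤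
      2 * ‖G S P η (∑ k ∈ K1, a k • v k)‖ ^ 2 +
        2 * ‖∑ k ∈ K2, a k • G S P η (cut c (v k))‖ ^ 2 := by
    have h6 := norm_add_le (G S P η (∑ k ∈ K1, a k • v k)) (∑ k ∈ K2, a k • G S P η (cut c (v k)))
    have h7 := norm_nonneg (G S P η (∑ k ∈ K1, a k • v k) + ∑ k ∈ K2, a k • G S P η (cut c (v k)))
    nlinarith [sq_nonneg (‖G S P η (∑ k ∈ K1, a k • v k)‖ -
      ‖∑ k ∈ K2, a k • G S P η (cut c (v k))‖)]
  linarith

theorem upper_aux {K : Finset ℕ} {p q : ℕ → ℕ} {v : ℕ → ℕ → H} {θ : ℝ}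
    (hB : Blocks S P K p q v θ) (a : ℕ → ℝ) (n : ℕ) :
    ∀ K' ⊆ K, (‖B S P n (∑ k ∈ K', a k • v k)‖ ^ 2 ≤
        8 * ∑ k ∈ K' with p k ≤ n, (a k) ^ 2 + 2 * ∑ k ∈ K', (a k) ^ 2 * ‖B S P n (v k)‖ ^ 2) ∧
      ‖G S P n (∑ k ∈ K', a k • v k)‖ ^ 2 ≤ 64 * ∑ k ∈ K', (a k) ^ 2 := by
  classical
  induction n using Nat.strong_induction_on with
  | _ n ih =>
    have part1 : ∀ K' ⊆ K, ‖B S P n (∑ k ∈ K', a k • v k)‖ ^ 2 ≤
        8 * ∑ k ∈ K' with p k ≤ n, (a k) ^ 2 +
          2 * ∑ k ∈ K', (a k) ^ 2 * ‖B S P n (v k)‖ ^ 2 := by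
      intro K' hK'
      cases h : S.nd n with
      | none =>
        rw [B_none S P h]
        have : 0 ≤ ∑ k ∈ K' with p k ≤ n, (a k) ^ 2 := Finset.sum_nonneg fun _ _ => sq_nonneg _
        have : 0 ≤ ∑ k ∈ K', (a k) ^ 2 * ‖B S P n (v k)‖ ^ 2 :=
          Finset.sum_nonneg fun _ _ => by positivity
        rw [norm_zero]
        linarith
      | some x =>
        obtain ⟨ξ, η⟩ := x
        obtain ⟨hξ, hη⟩ := S.lt n ξ η h
        have h1 : ‖B S P n (∑ k ∈ K', a k • v k)‖ ^ 2 =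
            ‖B S P ξ (∑ k ∈ K', a k • v k)‖ ^ 2 +
            (1 / 16) * ‖G S P η (cut (ξ + 1) (∑ k ∈ K', a k • v k))‖ ^ 2 := by
          rw [B_some S P h, norm_pair_sq]; norm_num
        have h2 : ∀ k, ‖B S P n (v k)‖ ^ 2 = ‖B S P ξ (v k)‖ ^ 2 +
            (1 / 16) * ‖G S P η (cut (ξ + 1) (v k))‖ ^ 2 := by
          intro k; rw [B_some S P h, norm_pair_sq]; norm_num
        have h3 := step_B (hB.mono hK') a (c := ξ + 1) hη
          (fun K'' hK'' => (ih η hη K'' (hK''.trans hK')).2)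
        have h4 := (ih ξ hξ K' hK').1
        have h5 : ∑ k ∈ K', (a k) ^ 2 * ‖B S P n (v k)‖ ^ 2 =
            ∑ k ∈ K', (a k) ^ 2 * ‖B S P ξ (v k)‖ ^ 2 +
            (1 / 16) * ∑ k ∈ K', (a k) ^ 2 * ‖G S P η (cut (ξ + 1) (v k))‖ ^ 2 := by
          rw [Finset.mul_sum, ← Finset.sum_add_distrib]
          refine Finset.sum_congr rfl fun k _ => ?_
          rw [h2 k]; ring
        have h6 : ∑ k ∈ K' with p k ≤ ξ, (a k) ^ 2 +
            ∑ k ∈ K' with (ξ + 1 ≤ p k ∧ p k ≤ n), (a k) ^ 2 ≤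
            ∑ k ∈ K' with p k ≤ n, (a k) ^ 2 := by
          rw [← Finset.sum_union]
          · apply Finset.sum_le_sum_of_subset_of_nonneg
            · intro k hk
              rw [Finset.mem_union, Finset.mem_filter, Finset.mem_filter] at hk
              rw [Finset.mem_filter]
              rcases hk with hk | hk
              · exact ⟨hk.1, by omega⟩
              · exact ⟨hk.1, hk.2.2⟩
            · intro k _ _; positivity
          · rw [Finset.disjoint_left]
            intro k hk hk'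
            rw [Finset.mem_filter] at hk hk'
            omega
        rw [h1, h5]
        linarith
    intro K' hK'
    refine ⟨part1 K' hK', ?_⟩
    set K0 := K'.filter (fun k => p k ≤ S.st n ∧ S.st n < q k) with hK0
    set K1 := K'.filter (fun k => ¬ (p k ≤ S.st n ∧ S.st n < q k)) with hK1
    have hK1K : K1 ⊆ K := (Finset.filter_subset _ _).trans hK'
    set A := ∑ k ∈ K', (a k) ^ 2 with hA
    have hA0 : 0 ≤ A := Finset.sum_nonneg fun _ _ => sq_nonneg _
    have hsq : ∀ x : ℝ, 0 ≤ x → ∀ y, y ^ 2 ≤ x → y ≤ Real.sqrt x := fun x _ y hy =>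
      Real.le_sqrt_of_sq_le hy
    have e1 : G S P n (∑ k ∈ K', a k • v k) = ∑ k ∈ K0, a k • G S P n (v k) +
        (D S P n (∑ k ∈ K1, a k • v k) + B S P n (∑ k ∈ K1, a k • v k)) := by
      rw [← G_eq_add, G_sum, G_sum, hK0, hK1, Finset.sum_filter_add_sum_filter_not]
    have hA1 : ∑ k ∈ K1, (a k) ^ 2 ≤ A :=
      Finset.sum_le_sum_of_subset_of_nonneg (Finset.filter_subset _ _) (fun _ _ _ => sq_nonneg _)
    -- the exceptional block
    have b0 : ‖∑ k ∈ K0, a k • G S P n (v k)‖ ≤ Real.sqrt A := by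
      apply hsq _ hA0
      refine (norm_sum_sq_of_single K0 _ ?_).trans ?_
      · intro i hi j hj hij
        rw [hK0, Finset.mem_filter] at hi hj
        exfalso
        rcases lt_or_gt_of_ne hij with h3 | h3
        · have := hB.ord i (hK' hi.1) j (hK' hj.1) h3
          omega
        · have := hB.ord j (hK' hj.1) i (hK' hi.1) h3
          omega
      · calc ∑ k ∈ K0, ‖a k • G S P n (v k)‖ ^ 2 ≤ ∑ k ∈ K0, (a k) ^ 2 := by
              refine Finset.sum_le_sum fun k hk => ?_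
              rw [norm_smul, mul_pow, Real.norm_eq_abs, sq_abs]
              have h1 := hB.norm k (hK' (Finset.filter_subset _ _ hk)) n
              have h2 : ‖G S P n (v k)‖ ^ 2 ≤ 1 := pow_le_one₀ (norm_nonneg _) h1
              nlinarith [sq_nonneg (a k)]
          _ ≤ A := Finset.sum_le_sum_of_subset_of_nonneg (Finset.filter_subset _ _)
              (fun _ _ _ => sq_nonneg _)
    -- the `D` terms
    have hD : ∀ k ∈ K1, ‖D S P n (v k)‖ ≤ θ := by
      intro k hk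
      have hk' := hk
      rw [hK1, Finset.mem_filter] at hk
      have hkK : k ∈ K := hK' hk.1
      by_cases h1 : p k ≤ S.st n
      · have h2 : q k ≤ S.st n := by
          by_contra h3
          exact hk.2 ⟨h1, by omega⟩
        rw [D_zero n (v k) (fun m hm => hB.supp k hkK m (Or.inr (by omega))), norm_zero]
        exact hB.pos
      · push Not at h1
        have hpk : (0 : ℝ) < p k := by
          have : 0 < p k := by omega
          exact_mod_cast this
        have h2 : ∀ m, ‖v k m‖ ≤ θ / p k := by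
          intro m
          rw [le_div_iff₀ hpk, mul_comm]
          exact hB.small k hkK m
        have h3 := D_le (S := S) (P := P) n (v k) h2
        have h4 : (S.age n : ℝ) ≤ p k := by
          have := age_le (S := S) n
          have : S.age n ≤ p k := by omega
          exact_mod_cast this
        calc ‖D S P n (v k)‖ ≤ S.age n * (θ / p k) := h3
          _ ≤ p k * (θ / p k) := mul_le_mul_of_nonneg_right h4 (div_nonneg hB.pos hpk.le)
          _ = θ := by field_simp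
    have b1 : ‖D S P n (∑ k ∈ K1, a k • v k)‖ ≤ Real.sqrt A := by
      apply hsq _ hA0
      rw [D_sum]
      have h1 : ‖∑ k ∈ K1, a k • D S P n (v k)‖ ≤ ∑ k ∈ K1, |a k| * θ := by
        refine (norm_sum_le _ _).trans (Finset.sum_le_sum fun k hk => ?_)
        rw [norm_smul, Real.norm_eq_abs]
        exact mul_le_mul_of_nonneg_left (hD k hk) (abs_nonneg _)
      have h2 : (∑ k ∈ K1, |a k| * θ) ^ 2 ≤ (∑ k ∈ K1, |a k| ^ 2) * ∑ k ∈ K1, θ ^ 2 :=
        Finset.sum_mul_sq_le_sq_mul_sq _ _ _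
      have h3 : ∑ k ∈ K1, θ ^ 2 ≤ 1 := by
        have := (hB.mono hK1K).card
        rw [Finset.sum_const, nsmul_eq_mul]
        linarith
      have h4 : ∑ k ∈ K1, |a k| ^ 2 ≤ A := by simp only [sq_abs]; exact hA1
      have h5 : 0 ≤ ∑ k ∈ K1, |a k| ^ 2 := Finset.sum_nonneg fun _ _ => by positivity
      calc ‖∑ k ∈ K1, a k • D S P n (v k)‖ ^ 2 ≤ (∑ k ∈ K1, |a k| * θ) ^ 2 :=
            pow_le_pow_left₀ (norm_nonneg _) h1 2
        _ ≤ (∑ k ∈ K1, |a k| ^ 2) * ∑ k ∈ K1, θ ^ 2 := h2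
        _ ≤ (∑ k ∈ K1, |a k| ^ 2) * 1 := mul_le_mul_of_nonneg_left h3 h5
        _ ≤ A := by linarith
    -- the `B` terms
    have hBk : ∀ k ∈ K1, ‖B S P n (v k)‖ ^ 2 ≤ 4 := by
      intro k hk
      have hkK := hK1K hk
      have hθ1 : θ ≤ 1 := by
        have h1 := (hB.mono (Finset.singleton_subset_iff.mpr hkK)).card
        simp only [Finset.card_singleton, Nat.cast_one, mul_one] at h1
        nlinarith [hB.pos]
      have h1 : B S P n (v k) = G S P n (v k) - D S P n (v k) := by rw [G_eq_add]; abel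
      have h2 : ‖B S P n (v k)‖ ≤ 2 := by
        rw [h1]
        calc ‖G S P n (v k) - D S P n (v k)‖ ≤ ‖G S P n (v k)‖ + ‖D S P n (v k)‖ :=
              norm_sub_le _ _
          _ ≤ 2 := by linarith [hB.norm k hkK n, hD k hk]
      nlinarith [norm_nonneg (B S P n (v k))]
    have b2 : ‖B S P n (∑ k ∈ K1, a k • v k)‖ ≤ 4 * Real.sqrt A := by
      have h1 := part1 K1 hK1K
      have h2 : ∑ k ∈ K1 with p k ≤ n, (a k) ^ 2 ≤ A :=
        (Finset.sum_le_sum_of_subset_of_nonneg (Finset.filter_subset _ _)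
          (fun _ _ _ => sq_nonneg _)).trans hA1
      have h3 : ∑ k ∈ K1, (a k) ^ 2 * ‖B S P n (v k)‖ ^ 2 ≤ 4 * A := by
        calc ∑ k ∈ K1, (a k) ^ 2 * ‖B S P n (v k)‖ ^ 2 ≤ ∑ k ∈ K1, (a k) ^ 2 * 4 :=
              Finset.sum_le_sum fun k hk => mul_le_mul_of_nonneg_left (hBk k hk) (sq_nonneg _)
          _ = 4 * ∑ k ∈ K1, (a k) ^ 2 := by rw [← Finset.sum_mul]; ring
          _ ≤ 4 * A := by linarith
      refine le_of_sq_le_sq ?_ (by positivity)
      rw [mul_pow, Real.sq_sqrt hA0]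
      linarith
    rw [e1]
    have h1 : ‖∑ k ∈ K0, a k • G S P n (v k) +
        (D S P n (∑ k ∈ K1, a k • v k) + B S P n (∑ k ∈ K1, a k • v k))‖ ≤ 6 * Real.sqrt A := by
      refine (norm_add_le _ _).trans ?_
      have := norm_add_le (D S P n (∑ k ∈ K1, a k • v k)) (B S P n (∑ k ∈ K1, a k • v k))
      linarith
    calc _ ≤ (6 * Real.sqrt A) ^ 2 := pow_le_pow_left₀ (norm_nonneg _) h1 2
      _ = 36 * A := by rw [mul_pow, Real.sq_sqrt hA0]; norm_num
      _ ≤ 64 * A := by linarith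

/-- The upper `2`-estimate. -/
theorem upper {K : Finset ℕ} {p q : ℕ → ℕ} {v : ℕ → ℕ → H} {θ : ℝ}
    (hB : Blocks S P K p q v θ) (a : ℕ → ℝ) (n : ℕ) :
    ‖G S P n (∑ k ∈ K, a k • v k)‖ ≤ 8 * Real.sqrt (∑ k ∈ K, (a k) ^ 2) := by
  have h := (upper_aux hB a n K subset_rfl).2
  have hA0 : 0 ≤ ∑ k ∈ K, (a k) ^ 2 := Finset.sum_nonneg fun _ _ => sq_nonneg _
  refine le_of_sq_le_sq ?_ (by positivity)
  rw [mul_pow, Real.sq_sqrt hA0]
  linarith

end Pool.Agent.R268.LInf
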