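import Mathlib
import Pool.Agent.R268.LInf.Upper
import Pool.Agent.R268.LInf.Model

set_option autoImplicit false

/-! The space. -/

namespace Pool.Agent.R268.LInf

open Finset BoundedContinuousFunction

variable {H : Type} [NormedAddCommGroup H] [InnerProductSpace ℝ H] (S : Sys) (P : Pair H) (e : H)

/-- The finite dimensional fibres. -/
noncomputable def Hs (n : ℕ) : Submodule ℝ H :=
  match h : S.nd n with
  | none => Submodule.span ℝ {e}
  | some (ξ, η) => (Hs ξ).map P.J0.toLinearMap ⊔ (Hs η).map P.J1.toLinearMap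
termination_by n
decreasing_by
  · exact (S.lt n ξ η h).1
  · exact (S.lt n ξ η h).2

lemma Hs_none {n : ℕ} (h : S.nd n = none) : Hs S P e n = Submodule.span ℝ {e} := by
  rw [Hs]
  split
  · rfl
  · rename_i heq; rw [h] at heq; exact absurd heq (by simp)

lemma Hs_some {n ξ η : ℕ} (h : S.nd n = some (ξ, η)) : Hs S P e n =
    (Hs S P e ξ).map P.J0.toLinearMap ⊔ (Hs S P e η).map P.J1.toLinearMap := by
  rw [Hs]
  split
  · rename_i heq; rw [h] at heq; exact absurd heq (by simp)
  · rename_i ξ' η' heq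
    rw [h] at heq
    obtain ⟨rfl, rfl⟩ : ξ = ξ' ∧ η = η' := by simpa using heq
    rfl

instance Hs_fin (n : ℕ) : FiniteDimensional ℝ (Hs S P e n) := by
  induction n using Nat.strong_induction_on with
  | _ n ih =>
    cases h : S.nd n with
    | none => rw [Hs_none S P e h]; infer_instance
    | some x =>
      obtain ⟨ξ, η⟩ := x
      rw [Hs_some S P e h]
      have := ih ξ (S.lt n ξ η h).1
      have := ih η (S.lt n ξ η h).2
      infer_instance

variable {S P e}

lemma G_mem (n : ℕ) : ∀ d : ℕ → H, (∀ m, d m ∈ Hs S P e m) → G S P n d ∈ Hs S P e n := by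
  induction n using Nat.strong_induction_on with
  | _ n ih =>
    intro d hd
    cases h : S.nd n with
    | none => rw [G_none S P h]; exact hd n
    | some x =>
      obtain ⟨ξ, η⟩ := x
      rw [G_some S P h]
      refine Submodule.add_mem _ (hd n) ?_
      rw [Hs_some S P e h]
      refine Submodule.add_mem_sup ?_ ?_
      · exact Submodule.mem_map.mpr ⟨_, ih ξ (S.lt n ξ η h).1 d hd, rfl⟩
      · refine Submodule.mem_map.mpr ⟨(1 / 4 : ℝ) • G S P η (cut (ξ + 1) d),
          Submodule.smul_mem _ _ (ih η (S.lt n ξ η h).2 _ ?_), ?_⟩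
        · intro m
          rw [cut_apply]
          split_ifs
          · exact hd m
          · exact Submodule.zero_mem _
        · simp

lemma G_cut_self (n : ℕ) (d : ℕ → H) : G S P n (cut n d) = d n := by
  have hz0 : ∀ m, m < n → (cut n d : ℕ → H) m = 0 := fun m hm => by
    rw [cut_apply, if_neg (by omega)]
  have hzn : (cut n d : ℕ → H) n = d n := by rw [cut_apply, if_pos le_rfl]
  cases h : S.nd n with
  | none => rw [G_none S P h, hzn]
  | some x =>
    obtain ⟨ξ, η⟩ := x
    obtain ⟨hξ, hη⟩ := S.lt n ξ η h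
    rw [G_some S P h, hzn, G_zero ξ _ (fun m hm => hz0 m (by omega)),
      G_zero η (cut (ξ + 1) (cut n d)) (fun m hm => by
        rw [cut_apply, hz0 m (by omega)]; simp)]
    simp

variable (S P)

/-- The sequence `d` supported in `[0, p)` with prescribed coordinates below `p`. -/
noncomputable def dco : ℕ → (ℕ → H) →ₗ[ℝ] (ℕ → H)
  | 0 => 0
  | p + 1 => dco p + (LinearMap.single ℝ (fun _ : ℕ => H) p) ∘ₗ
      (LinearMap.proj p - G S P p ∘ₗ dco p)

lemma dco_succ (p : ℕ) (z : ℕ → H) :
    dco S P (p + 1) z = dco S P p z + Pi.single p (z p - G S P p (dco S P p z)) := rfl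

variable {S P}

lemma dco_supp (p : ℕ) (z : ℕ → H) (m : ℕ) (hm : p ≤ m) : dco S P p z m = 0 := by
  induction p with
  | zero => rfl
  | succ p ih =>
    rw [dco_succ, Pi.add_apply, ih (by omega), Pi.single_eq_of_ne (by omega), add_zero]

lemma dco_low {p q : ℕ} (hpq : p ≤ q) (z : ℕ → H) (m : ℕ) (hm : m < p) :
    dco S P q z m = dco S P p z m := by
  induction q with
  | zero => omega
  | succ q ih =>
    rcases Nat.lt_or_ge q p with h | h
    · have : p = q + 1 := by omega
      rw [this]
    · rw [dco_succ, Pi.add_apply, ih h, Pi.single_eq_of_ne (by omega), add_zero]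

lemma G_dco {p : ℕ} (z : ℕ → H) {m : ℕ} (hm : m < p) : G S P m (dco S P p z) = z m := by
  induction p with
  | zero => omega
  | succ p ih =>
    rcases Nat.lt_or_ge m p with h | h
    · rw [← ih h]
      apply G_congr
      intro m' hm'
      exact dco_low (Nat.le_succ p) z m' (by omega)
    · have hmp : m = p := by omega
      subst hmp
      rw [dco_succ, map_add]
      have : G S P m (Pi.single m (z m - G S P m (dco S P m z))) =
          z m - G S P m (dco S P m z) := by
        have h1 := G_cut_self (S := S) (P := P) m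
          (Pi.single m (z m - G S P m (dco S P m z)) : ℕ → H)
        rw [Pi.single_eq_same] at h1
        rw [← h1]
        apply G_congr
        intro m' hm'
        rw [cut_apply]
        split_ifs with h2
        · rw [h1]
        · rw [Pi.single_eq_of_ne (by omega)]
      rw [this]; abel

lemma dco_mem (p : ℕ) (z : ℕ → H) (hz : ∀ m, m < p → z m ∈ Hs S P e m) (m : ℕ) :
    dco S P p z m ∈ Hs S P e m := by
  induction p generalizing m with
  | zero => exact Submodule.zero_mem _
  | succ p ih =>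
    have ih' := ih (fun m hm => hz m (by omega))
    rw [dco_succ, Pi.add_apply]
    refine Submodule.add_mem _ (ih' m) ?_
    by_cases h : m = p
    · subst h
      rw [Pi.single_eq_same]
      exact Submodule.sub_mem _ (hz m (by omega)) (G_mem m _ ih')
    · rw [Pi.single_eq_of_ne h]
      exact Submodule.zero_mem _

lemma dco_zero {p : ℕ} (z : ℕ → H) (hz : ∀ m, m < p → z m = 0) (q m : ℕ) (hm : m < p) :
    dco S P q z m = 0 := by
  induction q generalizing m with
  | zero => rfl
  | succ q ih =>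
    rw [dco_succ, Pi.add_apply, ih m hm, zero_add]
    by_cases h : m = q
    · subst h
      rw [Pi.single_eq_same, hz m hm, G_zero m (dco S P m z), sub_zero]
      intro m' hm'
      exact ih m' (by omega)
    · rw [Pi.single_eq_of_ne h]

lemma dco_eq_zero {p : ℕ} (z : ℕ → H) (hz : ∀ m, m < p → z m = 0) : dco S P p z = 0 := by
  funext m
  rcases Nat.lt_or_ge m p with h | h
  · exact dco_zero z hz p m h
  · exact dco_supp p z m h

lemma dco_of_G (p : ℕ) (z d : ℕ → H) (hz : ∀ m, m < p → z m = G S P m d) :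
    dco S P p z = low p d := by
  induction p with
  | zero =>
    funext m
    rw [low_apply, if_neg (by omega)]
    rfl
  | succ p ih =>
    rw [dco_succ, ih (fun m hm => hz m (by omega)), hz p (by omega), ← map_sub,
      ← cut_eq_sub, G_cut_self]
    funext m
    rw [Pi.add_apply, low_apply, low_apply]
    rcases lt_trichotomy m p with h | h | h
    · rw [if_pos h, if_pos (by omega), Pi.single_eq_of_ne (by omega), add_zero]
    · subst h
      rw [if_neg (by omega), if_pos (by omega), Pi.single_eq_same, zero_add]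
    · rw [if_neg (by omega), if_neg (by omega), Pi.single_eq_of_ne (by omega), add_zero]

/-- coordinates of a projection -/
lemma G_dco_bound {p : ℕ} {z : ℕ → H} {M : ℝ} (hM : 0 ≤ M) (hz : ∀ m, m < p → ‖z m‖ ≤ M) (n : ℕ) :
    ‖G S P n (dco S P p z)‖ ≤ 2 * M :=
  ext_bound n p (dco S P p z) M (fun m hm => dco_supp p z m hm)
    (fun m hm => by rw [G_dco z hm]; exact hz m hm) hM

variable (S P e)

/-- The ambient space. -/
abbrev XX (H : Type) [NormedAddCommGroup H] : Type := ℕ →ᵇ H

/-- The finitely supported elements. -/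
noncomputable def W0 : Submodule ℝ (XX H) where
  carrier := {x | ∃ d : ℕ → H, (∃ N, ∀ m, N ≤ m → d m = 0) ∧ (∀ m, d m ∈ Hs S P e m) ∧
    ∀ n, x n = G S P n d}
  add_mem' := by
    rintro x y ⟨d, ⟨N, hN⟩, hd, hx⟩ ⟨d', ⟨N', hN'⟩, hd', hy⟩
    refine ⟨d + d', ⟨N + N', fun m hm => ?_⟩, fun m => Submodule.add_mem _ (hd m) (hd' m),
      fun n => ?_⟩
    · rw [Pi.add_apply, hN m (by omega), hN' m (by omega), add_zero]
    · rw [map_add, ← hx n, ← hy n]; rfl
  zero_mem' := ⟨0, ⟨0, fun _ _ => rfl⟩, fun m => Submodule.zero_mem _, fun n => by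
    rw [map_zero]; rfl⟩
  smul_mem' := by
    rintro c x ⟨d, ⟨N, hN⟩, hd, hx⟩
    refine ⟨c • d, ⟨N, fun m hm => ?_⟩, fun m => Submodule.smul_mem _ _ (hd m), fun n => ?_⟩
    · rw [Pi.smul_apply, hN m hm, smul_zero]
    · rw [map_smul, ← hx n]; rfl

/-- The space. -/
noncomputable def WW : Submodule ℝ (XX H) := (W0 S P e).topologicalClosure

variable {S P e}

lemma W0_le : W0 S P e ≤ WW S P e := Submodule.le_topologicalClosure _

lemma WW_closed : IsClosed (WW S P e : Set (XX H)) := Submodule.isClosed_topologicalClosure _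

lemma WW_coord [CompleteSpace H] {x : XX H} (hx : x ∈ WW S P e) (m : ℕ) :
    x m ∈ Hs S P e m := by
  have h1 : IsClosed {x : XX H | x m ∈ Hs S P e m} := by
    have h2 : IsClosed (Hs S P e m : Set H) := Submodule.closed_of_finiteDimensional _
    exact h2.preimage ((continuous_apply m).comp BoundedContinuousFunction.continuous_coe)
  have h2 : (W0 S P e : Set (XX H)) ⊆ {x : XX H | x m ∈ Hs S P e m} := by
    rintro y ⟨d, _, hd, hy⟩
    change y m ∈ Hs S P e m
    rw [hy m]
    exact G_mem m d hd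
  have h3 : closure (W0 S P e : Set (XX H)) ⊆ {x : XX H | x m ∈ Hs S P e m} :=
    closure_minimal h2 h1
  have h4 : x ∈ closure (W0 S P e : Set (XX H)) := hx
  exact h3 h4

variable (S P)

/-- The element with coordinates `G n (dco p z)`. -/
noncomputable def lft (p : ℕ) (z : ℕ → H) : XX H :=
  BoundedContinuousFunction.ofNormedAddCommGroupDiscrete (fun n => G S P n (dco S P p z))
    (2 * ∑ m ∈ range p, ‖z m‖) (fun n => G_dco_bound
      (Finset.sum_nonneg fun _ _ => norm_nonneg _)
      (fun m hm => Finset.single_le_sum (f := fun m => ‖z m‖) (fun _ _ => norm_nonneg _)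
        (Finset.mem_range.mpr hm)) n)

variable {S P}

lemma lft_apply (p : ℕ) (z : ℕ → H) (n : ℕ) : lft S P p z n = G S P n (dco S P p z) := rfl

lemma lft_apply_lt {p : ℕ} (z : ℕ → H) {n : ℕ} (hn : n < p) : lft S P p z n = z n := by
  rw [lft_apply, G_dco z hn]

lemma lft_norm_le {p : ℕ} {z : ℕ → H} {M : ℝ} (hM : 0 ≤ M) (hz : ∀ m, m < p → ‖z m‖ ≤ M) :
    ‖lft S P p z‖ ≤ 2 * M := by
  rw [BoundedContinuousFunction.norm_le (by positivity)]
  intro n
  rw [lft_apply]
  exact G_dco_bound hM hz n

lemma lft_mem {p : ℕ} {z : ℕ → H} (hz : ∀ m, m < p → z m ∈ Hs S P e m) :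
    lft S P p z ∈ W0 S P e :=
  ⟨dco S P p z, ⟨p, fun m hm => dco_supp p z m hm⟩, dco_mem p z hz, fun n => lft_apply p z n⟩

lemma lft_congr {p : ℕ} {z z' : ℕ → H} (h : ∀ m, m < p → z m = z' m) :
    lft S P p z = lft S P p z' := by
  ext1 n
  rw [lft_apply, lft_apply]
  have : dco S P p (z - z') = 0 := dco_eq_zero _ (fun m hm => by
    rw [Pi.sub_apply, h m hm, sub_self])
  rw [map_sub, sub_eq_zero] at this
  rw [this]

lemma lft_add (p : ℕ) (z z' : ℕ → H) : lft S P p (z + z') = lft S P p z + lft S P p z' := by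
  ext1 n
  rw [BoundedContinuousFunction.add_apply, lft_apply, lft_apply, lft_apply, map_add, map_add]

lemma lft_smul (p : ℕ) (c : ℝ) (z : ℕ → H) : lft S P p (c • z) = c • lft S P p z := by
  ext1 n
  rw [BoundedContinuousFunction.smul_apply, lft_apply, lft_apply, map_smul, map_smul]

lemma lft_sub (p : ℕ) (z z' : ℕ → H) : lft S P p (z - z') = lft S P p z - lft S P p z' := by
  ext1 n
  rw [BoundedContinuousFunction.sub_apply, lft_apply, lft_apply, lft_apply, map_sub, map_sub]

/-- the projection of an element of the space -/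
lemma pr_norm_le (p : ℕ) (x : XX H) : ‖lft S P p x‖ ≤ 2 * ‖x‖ :=
  lft_norm_le (norm_nonneg _) (fun m _ => x.norm_coe_le_norm m)

lemma pr_of_rep {x : XX H} {d : ℕ → H} {N : ℕ} (hN : ∀ m, N ≤ m → d m = 0)
    (hx : ∀ n, x n = G S P n d) {p : ℕ} (hp : N ≤ p) : lft S P p x = x := by
  ext1 n
  rw [lft_apply, dco_of_G p x d (fun m _ => hx m), hx n]
  congr 1
  funext m
  rw [low_apply]
  split_ifs with h
  · rfl
  · rw [hN m (by omega)]

lemma pr_tendsto {x : XX H} (hx : x ∈ WW S P e) {ε : ℝ} (hε : 0 < ε) :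
    ∃ N, ∀ p, N ≤ p → ‖x - lft S P p x‖ ≤ ε := by
  have h4 : x ∈ closure (W0 S P e : Set (XX H)) := hx
  rw [Metric.mem_closure_iff] at h4
  obtain ⟨y, ⟨d, ⟨N, hN⟩, _, hy⟩, hxy⟩ := h4 (ε / 3) (by positivity)
  rw [dist_eq_norm] at hxy
  refine ⟨N, fun p hp => ?_⟩
  have h1 : lft S P p y = y := pr_of_rep hN hy hp
  have h2 : x - lft S P p x = (x - y) - lft S P p (x - y : XX H) := by
    have : lft S P p ((x - y : XX H) : ℕ → H) = lft S P p x - lft S P p y := by
      rw [← lft_sub]; rfl
    rw [this, h1]; abel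
  rw [h2]
  calc ‖(x - y) - lft S P p (x - y : XX H)‖ ≤ ‖x - y‖ + ‖lft S P p (x - y : XX H)‖ :=
        norm_sub_le _ _
    _ ≤ ‖x - y‖ + 2 * ‖x - y‖ := by gcongr; exact pr_norm_le p _
    _ ≤ ε := by linarith

end Pool.Agent.R268.LInf
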