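import Mathlib
import Pool.Agent.R268.LInf.Space

set_option autoImplicit false

/-! Building blocks in subspaces. -/

namespace Pool.Agent.R268.LInf

open Finset BoundedContinuousFunction

variable {H : Type} [NormedAddCommGroup H] [InnerProductSpace ℝ H] [CompleteSpace H]
  {S : Sys} {P : Pair H} {e : H}

/-- the first coordinates -/
noncomputable def coordL (S : Sys) (P : Pair H) (e : H) (p : ℕ) :
    WW S P e →ₗ[ℝ] ((n : Fin p) → Hs S P e n) :=
  LinearMap.pi fun n => LinearMap.codRestrict (Hs S P e n)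
    ((BoundedContinuousFunction.evalCLM ℝ (n : ℕ) : XX H →L[ℝ] H).toLinearMap ∘ₗ
      (WW S P e).subtype) (fun x => WW_coord x.2 n)

lemma coordL_eq_zero {p : ℕ} {x : WW S P e} (h : coordL S P e p x = 0) (n : ℕ) (hn : n < p) :
    (x : XX H) n = 0 := by
  have h1 := congrFun h ⟨n, hn⟩
  have h2 := congrArg Subtype.val h1
  exact h2

lemma ker_vec {V : Submodule ℝ (XX H)} (hV : V ≤ WW S P e) (hinf : ¬ FiniteDimensional ℝ V)
    (p : ℕ) : ∃ y ∈ V, ‖y‖ = 1 ∧ ∀ n, n < p → y n = 0 := by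
  by_contra hcon
  push Not at hcon
  apply hinf
  have hinj : Function.Injective (coordL S P e p ∘ₗ Submodule.inclusion hV) := by
    rw [← LinearMap.ker_eq_bot, LinearMap.ker_eq_bot']
    intro x hx
    by_contra hx0
    have hx0' : (x : XX H) ≠ 0 := fun h => hx0 (Subtype.ext h)
    have hn0 : ‖(x : XX H)‖ ≠ 0 := norm_ne_zero_iff.mpr hx0'
    obtain ⟨n, hn, hne⟩ := hcon (‖(x : XX H)‖⁻¹ • (x : XX H)) (V.smul_mem _ x.2)
      (by rw [norm_smul, norm_inv, norm_norm, inv_mul_cancel₀ hn0])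
    apply hne
    have h1 := coordL_eq_zero (S := S) (P := P) (e := e) (p := p)
      (x := Submodule.inclusion hV x) hx n hn
    have h2 : (x : XX H) n = 0 := h1
    rw [BoundedContinuousFunction.smul_apply, h2, smul_zero]
  exact Module.Finite.of_injective _ hinj

lemma exists_rep {d : ℕ → H} {N : ℕ} (hN : ∀ m, N ≤ m → d m = 0) :
    ∃ x : XX H, ∀ n, x n = G S P n d := by
  refine ⟨lft S P N (fun n => G S P n d), fun n => ?_⟩
  rw [lft_apply, dco_of_G N _ d (fun m _ => rfl)]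
  congr 1
  funext m
  rw [low_apply]
  split_ifs with h
  · rfl
  · rw [hN m (by omega)]

lemma blk {V : Submodule ℝ (XX H)} (hV : V ≤ WW S P e) (hinf : ¬ FiniteDimensional ℝ V)
    (p : ℕ) {δ : ℝ} (hδ : 0 < δ) (hδ1 : δ ≤ 1 / 4) :
    ∃ y ∈ V, ∃ (q : ℕ) (d : ℕ → H), p ≤ q ∧ (∀ m, (m < p ∨ q ≤ m) → d m = 0) ∧
      (∀ m, d m ∈ Hs S P e m) ∧ (∀ n, ‖y n - G S P n d‖ ≤ δ) ∧ (∀ m, ‖d m‖ ≤ 8) ∧
      ∃ η, η < q ∧ 1 / 4 ≤ ‖G S P η d‖ := by
  obtain ⟨y, hyV, hy1, hy0⟩ := ker_vec hV hinf p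
  obtain ⟨N, hN⟩ := pr_tendsto (hV hyV) hδ
  have hq := hN (max N p) (le_max_left _ _)
  set q := max N p with hqdef
  refine ⟨y, hyV, q, dco S P q y, le_max_right _ _, ?_, ?_, ?_, ?_, ?_⟩
  · rintro m (hm | hm)
    · exact dco_zero y hy0 q m hm
    · exact dco_supp q y m hm
  · exact dco_mem q y (fun m _ => WW_coord (hV hyV) m)
  · intro n
    have := (y - lft S P q y).norm_coe_le_norm n
    rw [BoundedContinuousFunction.sub_apply, lft_apply] at this
    exact this.trans hq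
  · intro m
    have h1 : ∀ n, ‖G S P n (dco S P q y)‖ ≤ 2 := by
      intro n
      have := (lft S P q y).norm_coe_le_norm n
      rw [lft_apply] at this
      have h2 := pr_norm_le (S := S) (P := P) q y
      rw [hy1] at h2
      linarith
    have := d_bound h1 m
    linarith
  · by_contra hcon
    push Not at hcon
    have h1 : ‖lft S P q y‖ ≤ 2 * (1 / 4) := by
      refine lft_norm_le (by norm_num) (fun m hm => ?_)
      have := hcon m hm
      rw [G_dco _ hm] at this
      exact this.le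
    have h2 : ‖y‖ ≤ ‖y - lft S P q y‖ + ‖lft S P q y‖ := by
      have := norm_add_le (y - lft S P q y) (lft S P q y)
      simpa using this
    linarith

lemma inner_chain {V : Submodule ℝ (XX H)} (hV : V ≤ WW S P e) (hinf : ¬ FiniteDimensional ℝ V)
    {Γ0 : ℕ} (h0 : S.nd Γ0 = none) {δ : ℝ} (hδ : 0 < δ) (hδ1 : δ ≤ 1 / 4) :
    ∀ j, j ≤ Γ0 → ∃ (Γ : ℕ) (s : XX H) (d : ℕ → H), Γ0 ≤ Γ ∧ S.age Γ = j + 1 ∧ S.st Γ = Γ0 ∧
      s ∈ V ∧ (∀ m, (m ≤ Γ0 ∨ Γ < m) → d m = 0) ∧ (∀ m, d m ∈ Hs S P e m) ∧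
      (∀ n, ‖s n - G S P n d‖ ≤ j * δ) ∧ (∀ m, ‖d m‖ ≤ 8) ∧
      (j : ℝ) / 256 ≤ ‖G S P Γ d‖ ^ 2 := by
  intro j
  induction j with
  | zero =>
    intro _
    refine ⟨Γ0, 0, 0, le_rfl, (S.h0 Γ0 h0).1, (S.h0 Γ0 h0).2, V.zero_mem, fun _ _ => rfl,
      fun _ => Submodule.zero_mem _, fun n => ?_, fun m => ?_, ?_⟩
    · simp
    · simp
    · simp
  | succ j ih =>
    intro hj
    obtain ⟨Γ, s, d, h1, h2, h3, h4, h5, h6, h7, h8, h9⟩ := ih (by omega)
    obtain ⟨y, hy, q, d', k1, k2, k3, k4, k5, η, k6, k7⟩ := blk hV hinf (Γ + 1) hδ hδ1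
    obtain ⟨Γ', g1, g2⟩ := S.inf1 Γ η (max q (Γ + 1)) (by rw [h2, h3]; omega)
    have g3 : q ≤ Γ' := (le_max_left _ _).trans g1
    have g4 : Γ + 1 ≤ Γ' := (le_max_right _ _).trans g1
    obtain ⟨g5, g6, _⟩ := S.h1 Γ' Γ η g2
    refine ⟨Γ', s + y, d + d', by omega, by rw [g5, h2], by rw [g6, h3], V.add_mem h4 hy,
      ?_, fun m => Submodule.add_mem _ (h6 m) (k3 m), ?_, ?_, ?_⟩
    · rintro m (hm | hm)
      · rw [Pi.add_apply, h5 m (Or.inl hm), k2 m (Or.inl (by omega)), add_zero]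
      · rw [Pi.add_apply, h5 m (Or.inr (by omega)), k2 m (Or.inr (by omega)), add_zero]
    · intro n
      rw [map_add, BoundedContinuousFunction.add_apply, add_sub_add_comm]
      refine (norm_add_le _ _).trans ?_
      have := h7 n
      have := k4 n
      push_cast
      linarith
    · intro m
      rw [Pi.add_apply]
      by_cases hm : m ≤ Γ
      · rw [k2 m (Or.inl (by omega)), add_zero]; exact h8 m
      · rw [h5 m (Or.inr (by omega)), zero_add]; exact k5 m
    · have e1 : (d + d') Γ' = 0 := by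
        rw [Pi.add_apply, h5 Γ' (Or.inr (by omega)), k2 Γ' (Or.inr (by omega)), add_zero]
      have e2 : G S P Γ (d + d') = G S P Γ d := by
        rw [map_add, G_zero Γ d' (fun m hm => k2 m (Or.inl (by omega))), add_zero]
      have e3 : cut (Γ + 1) (d + d') = d' := by
        funext m
        rw [cut_apply]
        split_ifs with hm
        · rw [Pi.add_apply, h5 m (Or.inr (by omega)), zero_add]
        · rw [k2 m (Or.inl (by omega))]
      rw [G_some S P g2, e1, zero_add, e2, e3, norm_pair_sq]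
      have : (1 / 4 : ℝ) ^ 2 ≤ ‖G S P η d'‖ ^ 2 := pow_le_pow_left₀ (by norm_num) k7 2
      push_cast
      linarith

/-- normalised small blocks in a subspace -/
lemma small_block {V : Submodule ℝ (XX H)} (hV : V ≤ WW S P e)
    (hinf : ¬ FiniteDimensional ℝ V) (p : ℕ) {θ δ : ℝ} (hθ : 0 < θ) (hδ : 0 < δ) :
    ∃ (q : ℕ) (v : XX H) (d : ℕ → H), p ≤ q ∧ v ∈ V ∧ (∀ m, (m < p ∨ q ≤ m) → d m = 0) ∧
      (∀ m, d m ∈ Hs S P e m) ∧ (∀ n, ‖G S P n d‖ ≤ 1) ∧ (∀ m, (p : ℝ) * ‖d m‖ ≤ θ) ∧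
      (∀ n, ‖v n - G S P n d‖ ≤ δ) ∧ ∃ η, η < q ∧ 1 / 4 ≤ ‖G S P η d‖ := by
  obtain ⟨N0, hN0⟩ := exists_nat_ge ((128 * p / θ) ^ 2)
  set N := N0 + 1 with hN
  have hN1 : (1 : ℝ) ≤ N := by rw [hN]; push_cast; linarith [(Nat.cast_nonneg N0 : (0:ℝ) ≤ N0)]
  have hNp : (0 : ℝ) < N := by linarith
  have hN2 : (128 * p / θ) ^ 2 ≤ N := by rw [hN]; push_cast; linarith
  obtain ⟨Γ0, hΓ0, hnd⟩ := S.inf0 (max p N)
  set δ' := min (1 / 4) (δ / (16 * N)) with hδ'
  have hδ'0 : 0 < δ' := by rw [hδ']; positivity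
  obtain ⟨Γ, s, d, h1, h2, h3, h4, h5, h6, h7, h8, h9⟩ := inner_chain hV hinf hnd hδ'0
    (min_le_left _ _) N ((le_max_right _ _).trans hΓ0)
  have hpΓ0 : p ≤ Γ0 := (le_max_left _ _).trans hΓ0
  obtain ⟨x, hx⟩ := exists_rep (S := S) (P := P) (d := d) (N := Γ + 1)
    (fun m hm => h5 m (Or.inr (by omega)))
  set T := ‖x‖ with hT
  have hT2 : (N : ℝ) / 256 ≤ T ^ 2 := by
    refine h9.trans ?_
    rw [← hx Γ]
    exact pow_le_pow_left₀ (norm_nonneg _) (x.norm_coe_le_norm Γ) 2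
  have hT0 : 0 < T := by
    have : 0 ≤ T := norm_nonneg x
    rcases this.lt_or_eq with h | h
    · exact h
    · rw [← h] at hT2
      have : (0 : ℝ) < N / 256 := by positivity
      norm_num at hT2
      linarith
  have hT16 : 1 / 16 ≤ T := by
    refine le_of_sq_le_sq ?_ hT0.le
    nlinarith
  have hTn : ∀ n, ‖G S P n d‖ ≤ T := fun n => by rw [← hx n]; exact x.norm_coe_le_norm n
  have hG : ∀ n, G S P n (T⁻¹ • d) = T⁻¹ • G S P n d := fun n => map_smul _ _ _
  have hGn : ∀ n, ‖G S P n (T⁻¹ • d)‖ = T⁻¹ * ‖G S P n d‖ := fun n => by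
    rw [hG, norm_smul, norm_inv, Real.norm_of_nonneg hT0.le]
  refine ⟨Γ + 1, T⁻¹ • s, T⁻¹ • d, by omega, V.smul_mem _ h4, ?_, fun m =>
    Submodule.smul_mem _ _ (h6 m), ?_, ?_, ?_, ?_⟩
  · rintro m (hm | hm)
    · rw [Pi.smul_apply, h5 m (Or.inl (by omega)), smul_zero]
    · rw [Pi.smul_apply, h5 m (Or.inr (by omega)), smul_zero]
  · intro n
    rw [hGn, inv_mul_le_iff₀ hT0]
    simpa using hTn n
  · intro m
    rw [Pi.smul_apply, norm_smul, norm_inv, Real.norm_of_nonneg hT0.le]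
    have hp0 : (0 : ℝ) ≤ p := Nat.cast_nonneg p
    have h10 : 8 * p / θ ≤ T := by
      refine le_of_sq_le_sq ?_ hT0.le
      have : (8 * (p : ℝ) / θ) ^ 2 = (128 * p / θ) ^ 2 / 256 := by ring
      rw [this]
      linarith
    have h11 : (p : ℝ) * (T⁻¹ * ‖d m‖) ≤ p * (T⁻¹ * 8) := by
      gcongr; exact h8 m
    refine h11.trans ?_
    rw [div_le_iff₀ hθ] at h10
    have : (p : ℝ) * (T⁻¹ * 8) = (8 * p) / T := by field_simp
    rw [this, div_le_iff₀ hT0]
    linarith
  · intro n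
    rw [hG, BoundedContinuousFunction.smul_apply, ← smul_sub, norm_smul, norm_inv,
      Real.norm_of_nonneg hT0.le, inv_mul_le_iff₀ hT0]
    refine (h7 n).trans ?_
    have h10 : δ' ≤ δ / (16 * N) := min_le_right _ _
    calc (N : ℝ) * δ' ≤ N * (δ / (16 * N)) := by gcongr
      _ = (1 / 16) * δ := by field_simp
      _ ≤ T * δ := by gcongr
  · by_contra hcon
    push Not at hcon
    have h10 : ‖x‖ ≤ T / 2 := by
      rw [BoundedContinuousFunction.norm_le (by positivity)]
      intro n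
      rw [hx n]
      have h11 := ext_bound (S := S) (P := P) n (Γ + 1) d (T / 4)
        (fun m hm => h5 m (Or.inr (by omega))) (fun m hm => ?_) (by positivity)
      · linarith
      · have := hcon m hm
        rw [hGn, inv_mul_lt_iff₀ hT0] at this
        linarith
    linarith

/-- The outer chain. -/
lemma outer_chain {V : Submodule ℝ (XX H)} (hV : V ≤ WW S P e) (hinf : ¬ FiniteDimensional ℝ V)
    {Γ0 : ℕ} (h0 : S.nd Γ0 = none) {θ δ : ℝ} (hθ : 0 < θ) (hδ : 0 < δ) :
    ∀ j, j ≤ Γ0 → ∃ (Γ : ℕ) (h : ℕ → H) (v : ℕ → XX H) (d : ℕ → ℕ → H) (p q : ℕ → ℕ)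
      (c : ℕ → ℝ), S.age Γ = j + 1 ∧ S.st Γ = Γ0 ∧
      (∀ i < j, v i ∈ V ∧ (∀ m, (m < p i ∨ q i ≤ m) → d i m = 0) ∧ (∀ n, ‖G S P n (d i)‖ ≤ 1) ∧
        (∀ m, (p i : ℝ) * ‖d i m‖ ≤ θ) ∧ (∀ n, ‖v i n - G S P n (d i)‖ ≤ δ) ∧ q i ≤ Γ ∧
        1 / 16 ≤ c i) ∧
      (∀ i < j, ∀ k < j, i < k → q i ≤ p k) ∧
      (∀ i < j, ∀ k < j, inner ℝ (h i) (h k) = if i = k then (1 : ℝ) else 0) ∧
      (∀ i < j, ∀ k < j, inner ℝ (h i) (G S P Γ (d k)) = if i = k then c i else 0) := by
  classical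
  intro j
  induction j with
  | zero =>
    intro _
    refine ⟨Γ0, 0, 0, 0, 0, 0, 0, (S.h0 Γ0 h0).1, (S.h0 Γ0 h0).2, ?_, ?_, ?_, ?_⟩
    all_goals intro i hi; omega
  | succ j ih =>
    intro hj
    obtain ⟨Γ, h, v, d, p, q, c, a1, a2, a3, a4, a5, a6⟩ := ih (by omega)
    obtain ⟨q', v', d', b1, b2, b3, b4, b5, b6, b7, η, b8, b9⟩ :=
      small_block hV hinf (Γ + 1) hθ hδ
    obtain ⟨Γ', g1, g2⟩ := S.inf1 Γ η (max q' (Γ + 1)) (by rw [a1, a2]; omega)
    have g3 : q' ≤ Γ' := (le_max_left _ _).trans g1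
    have g4 : Γ + 1 ≤ Γ' := (le_max_right _ _).trans g1
    obtain ⟨g5, g6, _⟩ := S.h1 Γ' Γ η g2
    set u := G S P η d' with hu
    have hu0 : 0 < ‖u‖ := by linarith
    -- the values at `Γ'`
    have e1 : ∀ i < j, G S P Γ' (d i) = P.J0 (G S P Γ (d i)) := by
      intro i hi
      obtain ⟨_, s2, _, _, _, s6, _⟩ := a3 i hi
      have z1 : cut (Γ + 1) (d i) = 0 := by
        funext m
        rw [cut_apply]
        split_ifs with hm
        · exact s2 m (Or.inr (by omega))
        · rfl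
      rw [G_some S P g2, s2 Γ' (Or.inr (by omega)), z1]
      simp
    have e2 : G S P Γ' d' = (1 / 4 : ℝ) • P.J1 u := by
      have z1 : cut (Γ + 1) d' = d' := by
        funext m
        rw [cut_apply]
        split_ifs with hm
        · rfl
        · exact (b3 m (Or.inl (by omega))).symm
      rw [G_some S P g2, b3 Γ' (Or.inr (by omega)), z1,
        G_zero Γ d' (fun m hm => b3 m (Or.inl (by omega)))]
      simp [hu]
    set h' : ℕ → H := fun i => if i < j then P.J0 (h i) else P.J1 (‖u‖⁻¹ • u) with hh'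
    refine ⟨Γ', h', fun i => if i < j then v i else v', fun i => if i < j then d i else d',
      fun i => if i < j then p i else Γ + 1, fun i => if i < j then q i else q',
      fun i => if i < j then c i else (1 / 4) * ‖u‖, by rw [g5, a1], by rw [g6, a2],
      ?_, ?_, ?_, ?_⟩
    · intro i hi
      by_cases hij : i < j
      · simp only [if_pos hij]
        obtain ⟨s1, s2, s3, s4, s5, s6, s7⟩ := a3 i hij
        exact ⟨s1, s2, s3, s4, s5, by omega, s7⟩
      · simp only [if_neg hij]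
        refine ⟨b2, b3, b5, ?_, b7, g3, by linarith⟩
        exact_mod_cast b6
    · intro i hi k hk hik
      have hij : i < j := by omega
      simp only [if_pos hij]
      by_cases hkj : k < j
      · simp only [if_pos hkj]; exact a4 i hij k hkj hik
      · simp only [if_neg hkj]
        have := (a3 i hij).2.2.2.2.2.1
        omega
    · intro i hi k hk
      simp only [hh']
      by_cases hij : i < j
      · simp only [if_pos hij]
        by_cases hkj : k < j
        · simp only [if_pos hkj]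
          rw [P.J0.inner_map_map]
          exact a5 i hij k hkj
        · simp only [if_neg hkj]
          rw [P.orth, if_neg (by omega)]
      · simp only [if_neg hij]
        by_cases hkj : k < j
        · simp only [if_pos hkj]
          rw [real_inner_comm, P.orth, if_neg (by omega)]
        · simp only [if_neg hkj]
          rw [P.J1.inner_map_map, if_pos (by omega), real_inner_self_eq_norm_sq, norm_smul,
            norm_inv, norm_norm, inv_mul_cancel₀ hu0.ne']
          norm_num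
    · intro i hi k hk
      simp only [hh']
      by_cases hij : i < j
      · simp only [if_pos hij]
        by_cases hkj : k < j
        · simp only [if_pos hkj]
          rw [e1 k hkj, P.J0.inner_map_map]
          exact a6 i hij k hkj
        · simp only [if_neg hkj]
          rw [e2, inner_smul_right, P.orth, mul_zero, if_neg (by omega)]
      · simp only [if_neg hij]
        by_cases hkj : k < j
        · simp only [if_pos hkj]
          rw [e1 k hkj, real_inner_comm, P.orth, if_neg (by omega)]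
        · simp only [if_neg hkj]
          rw [e2, inner_smul_right, P.J1.inner_map_map, if_pos (by omega), real_inner_smul_left,
            real_inner_self_eq_norm_sq]
          field_simp

end Pool.Agent.R268.LInf
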