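import Mathlib

set_option autoImplicit false

/-! A derandomised Khinchine inequality and the obstruction to complemented Hilbert spaces in
`ℓ_∞^m`. -/

namespace Pool.Agent.R268.LInf

open Finset

lemma final_ineq (x σ : ℝ) (hσ : 0 ≤ σ) : x ^ 2 / σ - (4 / 27) * x ^ 4 / σ ^ 3 ≤ |x| := by
  rcases hσ.eq_or_lt with h | h
  · rw [← h]; simp
  · set t := |x| / σ with ht
    have ht0 : 0 ≤ t := div_nonneg (abs_nonneg _) h.le
    have hx : |x| = t * σ := by rw [ht]; field_simp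
    have e1 : x ^ 2 = t ^ 2 * σ ^ 2 := by rw [← sq_abs, hx]; ring
    have e2 : x ^ 4 = t ^ 4 * σ ^ 4 := by
      have : x ^ 4 = (x ^ 2) ^ 2 := by ring
      rw [this, e1]; ring
    rw [e1, e2, hx]
    have e3 : t ^ 2 * σ ^ 2 / σ - (4 / 27) * (t ^ 4 * σ ^ 4) / σ ^ 3 =
        (t ^ 2 - (4 / 27) * t ^ 4) * σ := by field_simp
    rw [e3]
    refine mul_le_mul_of_nonneg_right ?_ h.le
    nlinarith [mul_nonneg ht0 (mul_nonneg (sq_nonneg (2 * t - 3)) (by linarith : 0 ≤ t + 3))]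

/-- the potential -/
noncomputable def pot (σ x r : ℝ) : ℝ :=
  (x ^ 2 + r) / σ - (4 / 27) * (x ^ 4 + 6 * x ^ 2 * r + 3 * r ^ 2) / σ ^ 3

lemma pot_avg (σ x r b : ℝ) (hσ : 0 ≤ σ) :
    2 * pot σ x (r + b ^ 2) ≤ pot σ (x + b) r + pot σ (x - b) r := by
  unfold pot
  have h1 : 0 ≤ 1 / σ ^ 3 := by positivity
  have h2 : (((x + b) ^ 2 + r) / σ - (4 / 27) * ((x + b) ^ 4 + 6 * (x + b) ^ 2 * r + 3 * r ^ 2)
      / σ ^ 3) + (((x - b) ^ 2 + r) / σ - (4 / 27) * ((x - b) ^ 4 + 6 * (x - b) ^ 2 * r +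
      3 * r ^ 2) / σ ^ 3) - 2 * ((x ^ 2 + (r + b ^ 2)) / σ - (4 / 27) * (x ^ 4 +
      6 * x ^ 2 * (r + b ^ 2) + 3 * (r + b ^ 2) ^ 2) / σ ^ 3) =
      (16 / 27) * b ^ 4 * (1 / σ ^ 3) := by ring
  have h3 : 0 ≤ (16 / 27) * b ^ 4 * (1 / σ ^ 3) := by positivity
  linarith

theorem signs {ι : Type} [Fintype ι] (n : ℕ) (b : ℕ → ι → ℝ) :
    ∃ ε : ℕ → ℝ, (∀ k, ε k = 1 ∨ ε k = -1) ∧
      ∑ i, Real.sqrt (∑ k ∈ range n, b k i ^ 2) ≤ 2 * ∑ i, |∑ k ∈ range n, ε k * b k i| := by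
  classical
  set σ : ι → ℝ := fun i => Real.sqrt (∑ k ∈ range n, b k i ^ 2) with hσ
  have hσ0 : ∀ i, 0 ≤ σ i := fun i => Real.sqrt_nonneg _
  have hσ2 : ∀ i, σ i ^ 2 = ∑ k ∈ range n, b k i ^ 2 := fun i =>
    Real.sq_sqrt (Finset.sum_nonneg fun _ _ => sq_nonneg _)
  have key : ∀ j, j ≤ n → ∃ ε : ℕ → ℝ, (∀ k, ε k = 1 ∨ ε k = -1) ∧
      (5 / 9) * ∑ i, σ i ≤ ∑ i, pot (σ i) (∑ k ∈ range j, ε k * b k i)
        (∑ k ∈ Ico j n, b k i ^ 2) := by
    intro j
    induction j with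
    | zero =>
      intro _
      refine ⟨fun _ => 1, fun _ => Or.inl rfl, ?_⟩
      rw [Finset.mul_sum]
      refine Finset.sum_le_sum fun i _ => ?_
      have h1 : ∑ k ∈ Ico 0 n, b k i ^ 2 = σ i ^ 2 := by
        rw [hσ2, Finset.range_eq_Ico]
      rw [h1]
      unfold pot
      rcases (hσ0 i).eq_or_lt with h | h
      · rw [← h]; simp
      · simp only [Finset.range_zero, Finset.sum_empty]
        have : (5 : ℝ) / 9 * σ i = ((0 : ℝ) ^ 2 + σ i ^ 2) / σ i - 4 / 27 * ((0 : ℝ) ^ 4 +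
            6 * (0 : ℝ) ^ 2 * σ i ^ 2 + 3 * (σ i ^ 2) ^ 2) / σ i ^ 3 := by
          field_simp; ring
        exact this.le
    | succ j ih =>
      intro hj
      obtain ⟨ε, h1, h2⟩ := ih (by omega)
      set x : ι → ℝ := fun i => ∑ k ∈ range j, ε k * b k i with hx
      set r : ι → ℝ := fun i => ∑ k ∈ Ico (j + 1) n, b k i ^ 2 with hr
      have e1 : ∀ i, ∑ k ∈ Ico j n, b k i ^ 2 = r i + b j i ^ 2 := by
        intro i
        rw [Finset.sum_eq_sum_Ico_succ_bot (by omega : j < n), add_comm]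
      simp only [e1] at h2
      have h3 : 2 * ∑ i, pot (σ i) (x i) (r i + b j i ^ 2) ≤
          ∑ i, pot (σ i) (x i + b j i) (r i) + ∑ i, pot (σ i) (x i - b j i) (r i) := by
        rw [Finset.mul_sum, ← Finset.sum_add_distrib]
        exact Finset.sum_le_sum fun i _ => pot_avg _ _ _ _ (hσ0 i)
      have key2 : ∀ s : ℝ, (s = 1 ∨ s = -1) → (5 / 9) * ∑ i, σ i ≤
          ∑ i, pot (σ i) (x i + s * b j i) (r i) →
          ∃ ε : ℕ → ℝ, (∀ k, ε k = 1 ∨ ε k = -1) ∧ (5 / 9) * ∑ i, σ i ≤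
            ∑ i, pot (σ i) (∑ k ∈ range (j + 1), ε k * b k i) (r i) := by
        intro s hs h
        refine ⟨Function.update ε j s, fun k => ?_, ?_⟩
        · by_cases hk : k = j
          · subst hk; simpa using hs
          · rw [Function.update_of_ne hk]; exact h1 k
        · convert h using 3 with i
          rw [Finset.sum_range_succ, Function.update_self]
          congr 1
          refine Finset.sum_congr rfl fun k hk => ?_
          rw [Function.update_of_ne (by rw [Finset.mem_range] at hk; omega)]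
      rcases le_or_gt ((5 / 9) * ∑ i, σ i) (∑ i, pot (σ i) (x i + b j i) (r i)) with h4 | h4
      · exact key2 1 (Or.inl rfl) (by simpa using h4)
      · refine key2 (-1) (Or.inr rfl) ?_
        have h5 : (5 / 9) * ∑ i, σ i ≤ ∑ i, pot (σ i) (x i - b j i) (r i) := by linarith
        simpa [sub_eq_add_neg] using h5
  obtain ⟨ε, h1, h2⟩ := key n le_rfl
  refine ⟨ε, h1, ?_⟩
  have h3 : ∑ i, pot (σ i) (∑ k ∈ range n, ε k * b k i) (∑ k ∈ Ico n n, b k i ^ 2) ≤
      ∑ i, |∑ k ∈ range n, ε k * b k i| := by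
    refine Finset.sum_le_sum fun i _ => ?_
    have := final_ineq (∑ k ∈ range n, ε k * b k i) (σ i) (hσ0 i)
    unfold pot
    simpa using this
  have h4 : 0 ≤ ∑ i, σ i := Finset.sum_nonneg fun i _ => hσ0 i
  linarith

theorem obstruct {F : Type} [NormedAddCommGroup F] [NormedSpace ℝ F] {m n : ℕ}
    (T : F ≃L[ℝ] (Fin m → ℝ)) (v : ℕ → F) (g : ℕ → F →L[ℝ] ℝ)
    (h1 : ∀ a : ℕ → ℝ, ‖∑ k ∈ range n, a k • v k‖ ≤ 9 * Real.sqrt (∑ k ∈ range n, a k ^ 2))
    (h2 : ∀ (a : ℕ → ℝ) (x : F), |∑ k ∈ range n, a k * g k x| ≤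
      Real.sqrt (∑ k ∈ range n, a k ^ 2) * ‖x‖)
    (h3 : ∀ k < n, 1 / 32 ≤ g k (v k)) :
    (n : ℝ) ≤ (576 * (‖T.toContinuousLinearMap‖ * ‖T.symm.toContinuousLinearMap‖)) ^ 2 := by
  classical
  set t := ‖T.toContinuousLinearMap‖ with ht
  set t' := ‖T.symm.toContinuousLinearMap‖ with ht'
  have ht0 : 0 ≤ t := norm_nonneg _
  have ht0' : 0 ≤ t' := norm_nonneg _
  set E : Fin m → (Fin m → ℝ) := fun i j => if i = j then (1 : ℝ) else 0 with hE
  set A : ℕ → Fin m → ℝ := fun k i => T (v k) i with hA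
  set B : ℕ → Fin m → ℝ := fun k i => g k (T.symm (E i)) with hB
  have exp : ∀ (k : ℕ) (y : Fin m → ℝ), g k (T.symm y) = ∑ i, y i * B k i := by
    intro k y
    have := LinearMap.pi_apply_eq_sum_univ
      ((g k).toLinearMap ∘ₗ T.symm.toLinearEquiv.toLinearMap) y
    simpa using this
  have e1 : ∀ k, g k (v k) = ∑ i, A k i * B k i := by
    intro k
    have := exp k (T (v k))
    rw [ContinuousLinearEquiv.symm_apply_apply] at this
    exact this
  have e2 : ∀ i, Real.sqrt (∑ k ∈ range n, A k i ^ 2) ≤ 9 * t := by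
    intro i
    set s := Real.sqrt (∑ k ∈ range n, A k i ^ 2) with hs
    have hs0 : 0 ≤ s := Real.sqrt_nonneg _
    have hs2 : s ^ 2 = ∑ k ∈ range n, A k i ^ 2 :=
      Real.sq_sqrt (Finset.sum_nonneg fun _ _ => sq_nonneg _)
    have h4 : s ^ 2 = T (∑ k ∈ range n, A k i • v k) i := by
      rw [hs2, map_sum, Finset.sum_apply]
      refine Finset.sum_congr rfl fun k _ => ?_
      rw [map_smul, Pi.smul_apply, smul_eq_mul, sq]
    have h5 : |T (∑ k ∈ range n, A k i • v k) i| ≤ t * (9 * s) := by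
      calc |T (∑ k ∈ range n, A k i • v k) i| ≤ ‖T (∑ k ∈ range n, A k i • v k)‖ := by
            rw [← Real.norm_eq_abs]; exact norm_le_pi_norm _ i
        _ ≤ t * ‖∑ k ∈ range n, A k i • v k‖ := T.toContinuousLinearMap.le_opNorm _
        _ ≤ t * (9 * s) := mul_le_mul_of_nonneg_left (h1 _) ht0
    have h6 : s ^ 2 ≤ t * (9 * s) := by rw [h4]; exact (le_abs_self _).trans h5
    rcases hs0.eq_or_lt with h7 | h7
    · rw [← h7]; positivity
    · have : s * s ≤ (9 * t) * s := by nlinarith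
      exact le_of_mul_le_mul_right this h7
  obtain ⟨ε, hε, hsum⟩ := signs n B
  have e3 : ∑ i, |∑ k ∈ range n, ε k * B k i| ≤ Real.sqrt n * t' := by
    set y : Fin m → ℝ := fun i => if 0 ≤ ∑ k ∈ range n, ε k * B k i then 1 else -1 with hy
    have h4 : ∑ i, |∑ k ∈ range n, ε k * B k i| = ∑ k ∈ range n, ε k * g k (T.symm y) := by
      have : ∀ k, ε k * g k (T.symm y) = ∑ i, y i * (ε k * B k i) := by
        intro k; rw [exp, Finset.mul_sum]; refine Finset.sum_congr rfl fun i _ => by ring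
      simp only [this]
      rw [Finset.sum_comm]
      refine Finset.sum_congr rfl fun i _ => ?_
      rw [← Finset.mul_sum]
      simp only [hy]
      split_ifs with h
      · rw [abs_of_nonneg h, one_mul]
      · push Not at h
        rw [abs_of_neg h]; ring
    rw [h4]
    have h5 := h2 ε (T.symm y)
    have h6 : ∑ k ∈ range n, ε k ^ 2 = n := by
      have : ∀ k ∈ range n, ε k ^ 2 = 1 := by
        intro k _; rcases hε k with h | h <;> rw [h] <;> norm_num
      rw [Finset.sum_congr rfl this]; simp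
    rw [h6] at h5
    have h7 : ‖T.symm y‖ ≤ t' := by
      calc ‖T.symm y‖ ≤ t' * ‖y‖ := T.symm.toContinuousLinearMap.le_opNorm _
        _ ≤ t' * 1 := by
            refine mul_le_mul_of_nonneg_left ?_ ht0'
            rw [pi_norm_le_iff_of_nonneg zero_le_one]
            intro i
            simp only [hy]
            split_ifs <;> simp
        _ = t' := mul_one _
    calc ∑ k ∈ range n, ε k * g k (T.symm y) ≤ |∑ k ∈ range n, ε k * g k (T.symm y)| :=
          le_abs_self _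
      _ ≤ Real.sqrt n * ‖T.symm y‖ := h5
      _ ≤ Real.sqrt n * t' := mul_le_mul_of_nonneg_left h7 (Real.sqrt_nonneg _)
  have e4 : (n : ℝ) / 32 ≤ ∑ k ∈ range n, g k (v k) := by
    have h4 : ∑ k ∈ range n, (1 / 32 : ℝ) ≤ ∑ k ∈ range n, g k (v k) :=
      Finset.sum_le_sum fun k hk => h3 k (Finset.mem_range.mp hk)
    simp only [Finset.sum_const, Finset.card_range, nsmul_eq_mul] at h4
    linarith
  have e5 : ∑ k ∈ range n, g k (v k) ≤ 9 * t * ∑ i, Real.sqrt (∑ k ∈ range n, B k i ^ 2) := by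
    simp only [e1]
    rw [Finset.sum_comm, Finset.mul_sum]
    refine Finset.sum_le_sum fun i _ => ?_
    have h4 := Finset.sum_mul_sq_le_sq_mul_sq (range n) (fun k => A k i) (fun k => B k i)
    have h5 : ∑ k ∈ range n, A k i * B k i ≤ Real.sqrt (∑ k ∈ range n, A k i ^ 2) *
        Real.sqrt (∑ k ∈ range n, B k i ^ 2) := by
      rw [← Real.sqrt_mul (Finset.sum_nonneg fun _ _ => sq_nonneg _)]
      exact Real.le_sqrt_of_sq_le h4
    exact h5.trans (mul_le_mul_of_nonneg_right (e2 i) (Real.sqrt_nonneg _))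
  have hsn : 0 ≤ Real.sqrt n := Real.sqrt_nonneg _
  have e6 : (n : ℝ) / 32 ≤ 18 * (t * t') * Real.sqrt n := by
    calc (n : ℝ) / 32 ≤ 9 * t * ∑ i, Real.sqrt (∑ k ∈ range n, B k i ^ 2) := e4.trans e5
      _ ≤ 9 * t * (2 * (Real.sqrt n * t')) := by
          refine mul_le_mul_of_nonneg_left (hsum.trans ?_) (by positivity)
          linarith
      _ = 18 * (t * t') * Real.sqrt n := by ring
  have hn2 : Real.sqrt n ^ 2 = n := Real.sq_sqrt (Nat.cast_nonneg n)
  rcases hsn.eq_or_lt with h | h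
  · have h0 : (n : ℝ) = 0 := by rw [← hn2, ← h]; norm_num
    rw [h0]; positivity
  · have e7 : Real.sqrt n * Real.sqrt n ≤ (576 * (t * t')) * Real.sqrt n := by nlinarith
    have e8 : Real.sqrt n ≤ 576 * (t * t') := le_of_mul_le_mul_right e7 h
    rw [← hn2]
    exact pow_le_pow_left₀ hsn e8 2

end Pool.Agent.R268.LInf
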