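import Mathlib
import Pool.Agent.R268.LInf.Build
import Pool.Agent.R268.LInf.Khin

set_option autoImplicit false

/-! The space has no infinite dimensional `𝓛_∞` subspace. -/

namespace Pool.Agent.R268.LInf

open Finset BoundedContinuousFunction

variable {H : Type} [NormedAddCommGroup H] [InnerProductSpace ℝ H] [CompleteSpace H]
  {S : Sys} {P : Pair H} {e : H}

lemma sum_abs_le (n : ℕ) (a : ℕ → ℝ) :
    ∑ k ∈ range n, |a k| ≤ Real.sqrt n * Real.sqrt (∑ k ∈ range n, a k ^ 2) := by
  rw [← Real.sqrt_mul (Nat.cast_nonneg n)]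
  apply Real.le_sqrt_of_sq_le
  have h := sq_sum_le_card_mul_sum_sq (s := range n) (f := fun k => |a k|)
  simpa [sq_abs] using h

theorem no_linf {E : Type} [NormedAddCommGroup E] [NormedSpace ℝ E] (ι : E →ₗᵢ[ℝ] XX H)
    (hι : ∀ x, ι x ∈ WW S P e)
    (V : Submodule ℝ E) (hinf : ¬ FiniteDimensional ℝ V) (c : ℝ)
    (hl : ∀ F : Submodule ℝ E, F ≤ V → FiniteDimensional ℝ F →
      ∃ G : Submodule ℝ E, F ≤ G ∧ G ≤ V ∧ FiniteDimensional ℝ G ∧
        ∃ T : G ≃L[ℝ] (Fin (Module.finrank ℝ G) → ℝ),
          ‖T.toContinuousLinearMap‖ * ‖T.symm.toContinuousLinearMap‖ ≤ c) : False := by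
  classical
  obtain ⟨n0, hn0⟩ := exists_nat_gt ((576 * |c|) ^ 2)
  set n := n0 + 1 with hn
  have hn1 : (1 : ℝ) ≤ n := by rw [hn]; push_cast; linarith [(Nat.cast_nonneg n0 : (0:ℝ) ≤ n0)]
  have hnp : (0 : ℝ) < n := by linarith
  have hnc : (576 * |c|) ^ 2 < n := by rw [hn]; push_cast; linarith
  set V' : Submodule ℝ (XX H) := V.map ι.toLinearMap with hV'
  have hV'W : V' ≤ WW S P e := by
    rintro x ⟨y, _, rfl⟩
    exact hι y
  have hV'inf : ¬ FiniteDimensional ℝ V' := by
    intro h
    apply hinf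
    have eq := Submodule.equivMapOfInjective ι.toLinearMap ι.injective V
    exact LinearEquiv.finiteDimensional eq.symm
  obtain ⟨Γ0, hΓ0, hnd⟩ := S.inf0 n
  have hθ : (0 : ℝ) < 1 / n := by positivity
  have hδ : (0 : ℝ) < 1 / (32 * n) := by positivity
  obtain ⟨Γ, h, v, d, p, q, c', a1, a2, a3, a4, a5, a6⟩ :=
    outer_chain hV'W hV'inf hnd hθ hδ n hΓ0
  -- the vectors in the space
  have hw : ∀ k, ∃ w : E, k < n → (w ∈ V ∧ ι w = v k) := by
    intro k
    by_cases hk : k < n
    · have h1 := (a3 k hk).1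
      rw [hV', Submodule.mem_map] at h1
      obtain ⟨w, hw1, hw2⟩ := h1
      exact ⟨w, fun _ => ⟨hw1, hw2⟩⟩
    · exact ⟨0, fun h => absurd h hk⟩
  choose w hw using hw
  set F : Submodule ℝ E := Submodule.span ℝ (w '' (range n : Set ℕ)) with hF
  have hFV : F ≤ V := by
    rw [hF, Submodule.span_le]
    rintro x ⟨k, hk, rfl⟩
    exact (hw k (by simpa using hk)).1
  have hFfin : FiniteDimensional ℝ F :=
    FiniteDimensional.span_of_finite ℝ ((Finset.finite_toSet _).image _)
  obtain ⟨G0, hFG, hGV, hGfin, T, hT⟩ := hl F hFV hFfin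
  have hwG : ∀ k, k < n → w k ∈ G0 := fun k hk => hFG (Submodule.subset_span
    ⟨k, by simpa using hk, rfl⟩)
  set vG : ℕ → G0 := fun k => if hk : k < n then ⟨w k, hwG k hk⟩ else 0 with hvG
  have hvGk : ∀ k, k < n → ι (vG k : E) = v k := by
    intro k hk
    simp only [hvG, dif_pos hk]
    exact (hw k hk).2
  set g : ℕ → G0 →L[ℝ] ℝ := fun k => (innerSL ℝ (h k)) ∘L
    (BoundedContinuousFunction.evalCLM ℝ Γ : XX H →L[ℝ] H) ∘L ι.toContinuousLinearMap ∘L
      G0.subtypeL with hg
  have hgk : ∀ k (x : G0), g k x = inner ℝ (h k) (ι (x : E) Γ) := fun k x => rfl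
  have hB : Blocks S P (range n) p q d (1 / n) := by
    refine ⟨?_, ?_, ?_, ?_, hθ.le, ?_⟩
    · intro i hi j hj hij
      exact a4 i (by simpa using hi) j (by simpa using hj) hij
    · intro k hk m hm
      exact (a3 k (by simpa using hk)).2.1 m hm
    · intro k hk
      exact (a3 k (by simpa using hk)).2.2.1
    · intro k hk
      exact (a3 k (by simpa using hk)).2.2.2.1
    · rw [card_range]
      have : (1 / (n : ℝ)) ^ 2 * n = 1 / n := by field_simp
      rw [this, div_le_one hnp]
      exact hn1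
  have hsqn : Real.sqrt n ≤ n := by
    rw [Real.sqrt_le_left hnp.le]
    nlinarith
  have key := obstruct (n := n) T vG g ?_ ?_ ?_
  · have h1 : 576 * (‖T.toContinuousLinearMap‖ * ‖T.symm.toContinuousLinearMap‖) ≤
        576 * |c| := by
      have := hT.trans (le_abs_self c)
      linarith
    have h2 := pow_le_pow_left₀ (by positivity) h1 2
    linarith
  · -- upper estimate
    intro a
    set s := Real.sqrt (∑ k ∈ range n, a k ^ 2) with hs
    have hs0 : 0 ≤ s := Real.sqrt_nonneg _
    have e1 : ‖∑ k ∈ range n, a k • vG k‖ = ‖∑ k ∈ range n, a k • v k‖ := by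
      have : ι ((∑ k ∈ range n, a k • vG k : G0) : E) = ∑ k ∈ range n, a k • v k := by
        rw [Submodule.coe_sum, map_sum]
        refine Finset.sum_congr rfl fun k hk => ?_
        rw [Submodule.coe_smul, map_smul, hvGk k (by simpa using hk)]
      rw [← this, ι.norm_map]; rfl
    rw [e1, BoundedContinuousFunction.norm_le (by positivity)]
    intro m
    have e2 : (∑ k ∈ range n, a k • v k) m = ∑ k ∈ range n, a k • (v k m - G S P m (d k)) +
        G S P m (∑ k ∈ range n, a k • d k) := by
      rw [G_sum, ← Finset.sum_add_distrib]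
      have : (∑ k ∈ range n, a k • v k) m = ∑ k ∈ range n, a k • v k m := by
        simp
      rw [this]
      refine Finset.sum_congr rfl fun k _ => ?_
      rw [← smul_add]; congr 1; abel
    rw [e2]
    have e3 : ‖∑ k ∈ range n, a k • (v k m - G S P m (d k))‖ ≤ s := by
      calc ‖∑ k ∈ range n, a k • (v k m - G S P m (d k))‖
          ≤ ∑ k ∈ range n, |a k| * (1 / (32 * n)) := by
            refine (norm_sum_le _ _).trans (Finset.sum_le_sum fun k hk => ?_)
            rw [norm_smul, Real.norm_eq_abs]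
            exact mul_le_mul_of_nonneg_left ((a3 k (by simpa using hk)).2.2.2.2.1 m)
              (abs_nonneg _)
        _ = (∑ k ∈ range n, |a k|) * (1 / (32 * n)) := by rw [Finset.sum_mul]
        _ ≤ (Real.sqrt n * s) * (1 / (32 * n)) :=
            mul_le_mul_of_nonneg_right (sum_abs_le n a) hδ.le
        _ ≤ (n * s) * (1 / (32 * n)) := by gcongr
        _ = s / 32 := by field_simp
        _ ≤ s := by linarith
    have e4 := upper hB a m
    calc _ ≤ ‖∑ k ∈ range n, a k • (v k m - G S P m (d k))‖ +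
          ‖G S P m (∑ k ∈ range n, a k • d k)‖ := norm_add_le _ _
      _ ≤ s + 8 * s := add_le_add e3 e4
      _ = 9 * s := by ring
  · -- functionals
    intro a x
    have e1 : ∑ k ∈ range n, a k * g k x =
        inner ℝ (∑ k ∈ range n, a k • h k) (ι (x : E) Γ) := by
      rw [sum_inner]
      refine Finset.sum_congr rfl fun k _ => ?_
      rw [hgk, real_inner_smul_left]
    have e2 : ‖∑ k ∈ range n, a k • h k‖ = Real.sqrt (∑ k ∈ range n, a k ^ 2) := by
      rw [@norm_eq_sqrt_real_inner]
      congr 1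
      rw [sum_inner]
      refine Finset.sum_congr rfl fun i hi => ?_
      rw [inner_sum]
      rw [Finset.sum_eq_single_of_mem i hi]
      · rw [real_inner_smul_left, real_inner_smul_right,
          a5 i (by simpa using hi) i (by simpa using hi), if_pos rfl]
        ring
      · intro k hk hki
        rw [real_inner_smul_left, real_inner_smul_right,
          a5 i (by simpa using hi) k (by simpa using hk), if_neg (Ne.symm hki)]
        ring
    rw [e1, ← e2]
    refine (abs_real_inner_le_norm _ _).trans ?_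
    refine mul_le_mul_of_nonneg_left ?_ (norm_nonneg _)
    exact ((ι (x : E)).norm_coe_le_norm Γ).trans (by rw [ι.norm_map]; rfl)
  · intro k hk
    rw [hgk, hvGk k hk]
    have e1 : inner ℝ (h k) (v k Γ) = inner ℝ (h k) (G S P Γ (d k)) +
        inner ℝ (h k) (v k Γ - G S P Γ (d k)) := by
      rw [← inner_add_right]; congr 1; abel
    rw [e1, a6 k hk k hk, if_pos rfl]
    have e2 : ‖h k‖ = 1 := by
      rw [@norm_eq_sqrt_real_inner, a5 k hk k hk, if_pos rfl, Real.sqrt_one]
    have e3 : |inner ℝ (h k) (v k Γ - G S P Γ (d k))| ≤ 1 / (32 * n) := by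
      refine (abs_real_inner_le_norm _ _).trans ?_
      rw [e2, one_mul]
      exact (a3 k hk).2.2.2.2.1 Γ
    have e4 : (1 : ℝ) / (32 * n) ≤ 1 / 32 := by
      rw [div_le_div_iff₀ (by positivity) (by norm_num)]
      linarith
    have e5 := (a3 k hk).2.2.2.2.2.2
    have := (abs_le.mp e3).1
    linarith

end Pool.Agent.R268.LInf
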