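import Mathlib
import Pool.Agent.R268.LInf.Build

set_option autoImplicit false

/-! The decomposition of the space is shrinking. -/

namespace Pool.Agent.R268.LInf

open Finset BoundedContinuousFunction

variable {H : Type} [NormedAddCommGroup H] [InnerProductSpace ℝ H] [CompleteSpace H]
  {S : Sys} {P : Pair H} {e : H}
  {E : Type} [NormedAddCommGroup E] [NormedSpace ℝ E]

lemma sh1 (ι : E →ₗᵢ[ℝ] XX H) (hι : ∀ x, ι x ∈ WW S P e) (hs : ∀ x ∈ WW S P e, ∃ y, ι y = x)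
    (φ : E →L[ℝ] ℝ) {ε : ℝ} (hε : 0 < ε)
    (h : ∀ m, ∃ x : E, (∀ n, n < m → ι x n = 0) ∧ ε * ‖x‖ < |φ x|) (p : ℕ) :
    ∃ (q : ℕ) (x : E) (d : ℕ → H), p ≤ q ∧ (∀ m, (m < p ∨ q ≤ m) → d m = 0) ∧
      (∀ n, ι x n = G S P n d) ∧ ‖x‖ ≤ 1 ∧ ε / 4 ≤ φ x := by
  obtain ⟨x, hx0, hx⟩ := h p
  have hxn : 0 < ‖x‖ := by
    rcases (norm_nonneg x).eq_or_lt with h1 | h1
    · exfalso
      rw [← h1, mul_zero] at hx
      have : x = 0 := norm_eq_zero.mp h1.symm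
      rw [this, map_zero, abs_zero] at hx
      exact lt_irrefl _ hx
    · exact h1
  -- normalise
  obtain ⟨y, hy0, hy1, hy2⟩ : ∃ y : E, (∀ n, n < p → ι y n = 0) ∧ ‖y‖ = 1 / 2 ∧ ε / 2 ≤ φ y := by
    obtain ⟨s, hs1, hs2⟩ : ∃ s : ℝ, |s| = 1 ∧ s * φ x = |φ x| := by
      rcases abs_cases (φ x) with ⟨h1, _⟩ | ⟨h1, _⟩
      · exact ⟨1, by simp, by rw [h1, one_mul]⟩
      · exact ⟨-1, by simp, by rw [h1]; ring⟩
    refine ⟨(s / (2 * ‖x‖)) • x, fun n hn => ?_, ?_, ?_⟩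
    · rw [map_smul, BoundedContinuousFunction.smul_apply, hx0 n hn, smul_zero]
    · rw [norm_smul, Real.norm_eq_abs, abs_div, hs1, abs_of_pos (by positivity)]
      field_simp
    · rw [map_smul, smul_eq_mul]
      have : s / (2 * ‖x‖) * φ x = |φ x| / (2 * ‖x‖) := by rw [← hs2]; ring
      rw [this, le_div_iff₀ (by positivity)]
      nlinarith
  set η := min (1 / 2) (ε / (4 * (‖φ‖ + 1))) with hη
  have hη0 : 0 < η := by
    have : 0 ≤ ‖φ‖ := norm_nonneg _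
    rw [hη]; positivity
  obtain ⟨N, hN⟩ := pr_tendsto (hι y) hη0
  have hq := hN (max N p) (le_max_left _ _)
  set q := max N p with hqdef
  have hmem : lft S P q (ι y) ∈ WW S P e := W0_le (lft_mem (fun m _ => WW_coord (hι y) m))
  obtain ⟨y', hy'⟩ := hs _ hmem
  have hd : ‖y - y'‖ ≤ η := by
    rw [← ι.norm_map, map_sub, hy']; exact hq
  refine ⟨q, y', dco S P q (ι y), le_max_right _ _, ?_, fun n => ?_, ?_, ?_⟩
  · rintro m (hm | hm)
    · exact dco_zero _ hy0 q m hm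
    · exact dco_supp q _ m hm
  · rw [hy', lft_apply]
  · have h1 : ‖y'‖ ≤ ‖y‖ + ‖y - y'‖ := by
      have := norm_sub_le y (y - y')
      simpa using this
    have h2 : η ≤ 1 / 2 := min_le_left _ _
    linarith
  · have h1 : φ y' = φ y - φ (y - y') := by rw [map_sub]; ring
    have h2 : |φ (y - y')| ≤ ‖φ‖ * η := by
      rw [← Real.norm_eq_abs]
      exact (φ.le_opNorm _).trans (mul_le_mul_of_nonneg_left hd (norm_nonneg _))
    have h3 : ‖φ‖ * η ≤ ε / 4 := by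
      have h4 : η ≤ ε / (4 * (‖φ‖ + 1)) := min_le_right _ _
      have h5 : 0 ≤ ‖φ‖ := norm_nonneg _
      calc ‖φ‖ * η ≤ (‖φ‖ + 1) * (ε / (4 * (‖φ‖ + 1))) := by
            apply mul_le_mul (by linarith) h4 hη0.le (by linarith)
        _ = ε / 4 := by field_simp
    have := (abs_le.mp (h2.trans h3)).2
    linarith

lemma sh2 (ι : E →ₗᵢ[ℝ] XX H) (φ : E →L[ℝ] ℝ) {ε : ℝ}
    (h : ∀ p : ℕ, ∃ (q : ℕ) (x : E) (d : ℕ → H), p ≤ q ∧ (∀ m, (m < p ∨ q ≤ m) → d m = 0) ∧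
      (∀ n, ι x n = G S P n d) ∧ ‖x‖ ≤ 1 ∧ ε ≤ φ x) (p : ℕ) (N : ℕ) :
    ∃ (q : ℕ) (x : E) (d : ℕ → H), p ≤ q ∧ (∀ m, (m < p ∨ q ≤ m) → d m = 0) ∧
      (∀ n, ι x n = G S P n d) ∧ ‖x‖ ≤ N ∧ N * ε ≤ φ x ∧ ∀ m, ‖d m‖ ≤ 4 := by
  induction N with
  | zero =>
    refine ⟨p, 0, 0, le_rfl, fun _ _ => rfl, fun n => ?_, ?_, ?_, ?_⟩
    · rw [map_zero, map_zero]; rfl
    · simp
    · simp
    · intro m; simp
  | succ N ih =>
    obtain ⟨q, x, d, h1, h2, h3, h4, h5, h6⟩ := ih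
    obtain ⟨q', x', d', k1, k2, k3, k4, k5⟩ := h q
    refine ⟨q', x + x', d + d', by omega, ?_, ?_, ?_, ?_, ?_⟩
    · rintro m (hm | hm)
      · rw [Pi.add_apply, h2 m (Or.inl hm), k2 m (Or.inl (by omega)), add_zero]
      · rw [Pi.add_apply, h2 m (Or.inr (by omega)), k2 m (Or.inr hm), add_zero]
    · intro n
      rw [map_add, map_add, BoundedContinuousFunction.add_apply, h3, k3]
    · refine (norm_add_le _ _).trans ?_
      push_cast; linarith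
    · rw [map_add]; push_cast; linarith
    · intro m
      rw [Pi.add_apply]
      by_cases hm : m < q
      · rw [k2 m (Or.inl hm), add_zero]; exact h6 m
      · rw [h2 m (Or.inr (by omega)), zero_add]
        have h7 : ∀ n, ‖G S P n d'‖ ≤ 1 := by
          intro n
          rw [← k3]
          exact ((ι x').norm_coe_le_norm n).trans (by rw [ι.norm_map]; exact k4)
        have := d_bound h7 m
        linarith

lemma sh3 (ι : E →ₗᵢ[ℝ] XX H) (φ : E →L[ℝ] ℝ) {ε : ℝ}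
    (h : ∀ p : ℕ, ∃ (q : ℕ) (x : E) (d : ℕ → H), p ≤ q ∧ (∀ m, (m < p ∨ q ≤ m) → d m = 0) ∧
      (∀ n, ι x n = G S P n d) ∧ ‖x‖ ≤ 1 ∧ ε ≤ φ x) {θ : ℝ} (hθ : 0 < θ) (p : ℕ) :
    ∃ (q : ℕ) (x : E) (d : ℕ → H), p ≤ q ∧ (∀ m, (m < p ∨ q ≤ m) → d m = 0) ∧
      (∀ n, ι x n = G S P n d) ∧ ‖x‖ ≤ 1 ∧ ε ≤ φ x ∧ ∀ m, (p : ℝ) * ‖d m‖ ≤ θ := by
  obtain ⟨N0, hN0⟩ := exists_nat_ge (4 * p / θ)
  set N := N0 + 1 with hN
  have hNp : (0 : ℝ) < N := by rw [hN]; positivity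
  have hN2 : 4 * p / θ ≤ N := by rw [hN]; push_cast; linarith
  obtain ⟨q, x, d, h1, h2, h3, h4, h5, h6⟩ := sh2 ι φ h p N
  refine ⟨q, (N : ℝ)⁻¹ • x, (N : ℝ)⁻¹ • d, h1, ?_, ?_, ?_, ?_, ?_⟩
  · intro m hm
    rw [Pi.smul_apply, h2 m hm, smul_zero]
  · intro n
    rw [map_smul, map_smul, BoundedContinuousFunction.smul_apply, h3]
  · rw [norm_smul, norm_inv, Real.norm_of_nonneg hNp.le, inv_mul_le_iff₀ hNp]
    linarith
  · rw [map_smul, smul_eq_mul, le_inv_mul_iff₀ hNp]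
    exact h5
  · intro m
    rw [Pi.smul_apply, norm_smul, norm_inv, Real.norm_of_nonneg hNp.le]
    rw [div_le_iff₀ hθ] at hN2
    have hp0 : (0 : ℝ) ≤ p := Nat.cast_nonneg p
    have h7 : (p : ℝ) * ((N : ℝ)⁻¹ * ‖d m‖) ≤ p * ((N : ℝ)⁻¹ * 4) := by
      gcongr; exact h6 m
    refine h7.trans ?_
    have : (p : ℝ) * ((N : ℝ)⁻¹ * 4) = (4 * p) / N := by field_simp
    rw [this, div_le_iff₀ hNp]
    linarith

lemma sh4 (ι : E →ₗᵢ[ℝ] XX H) (φ : E →L[ℝ] ℝ) {ε : ℝ}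
    (h : ∀ p : ℕ, ∃ (q : ℕ) (x : E) (d : ℕ → H), p ≤ q ∧ (∀ m, (m < p ∨ q ≤ m) → d m = 0) ∧
      (∀ n, ι x n = G S P n d) ∧ ‖x‖ ≤ 1 ∧ ε ≤ φ x) {θ : ℝ} (hθ : 0 < θ) (j : ℕ) :
    ∃ (p q : ℕ → ℕ) (x : ℕ → E) (d : ℕ → ℕ → H) (Q : ℕ),
      (∀ i < j, (∀ m, (m < p i ∨ q i ≤ m) → d i m = 0) ∧ (∀ n, ι (x i) n = G S P n (d i)) ∧
        ‖x i‖ ≤ 1 ∧ ε ≤ φ (x i) ∧ (∀ m, (p i : ℝ) * ‖d i m‖ ≤ θ) ∧ q i ≤ Q) ∧
      (∀ i < j, ∀ k < j, i < k → q i ≤ p k) := by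
  classical
  induction j with
  | zero =>
    refine ⟨0, 0, 0, 0, 0, ?_, ?_⟩
    all_goals intro i hi; omega
  | succ j ih =>
    obtain ⟨p, q, x, d, Q, h1, h2⟩ := ih
    obtain ⟨q', x', d', k1, k2, k3, k4, k5, k6⟩ := sh3 ι φ h hθ Q
    refine ⟨fun i => if i < j then p i else Q, fun i => if i < j then q i else q',
      fun i => if i < j then x i else x', fun i => if i < j then d i else d', q', ?_, ?_⟩
    · intro i hi
      by_cases hij : i < j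
      · simp only [if_pos hij]
        obtain ⟨s1, s2, s3, s4, s5, s6⟩ := h1 i hij
        exact ⟨s1, s2, s3, s4, s5, by omega⟩
      · simp only [if_neg hij]
        exact ⟨k2, k3, k4, k5, k6, le_rfl⟩
    · intro i hi k hk hik
      have hij : i < j := by omega
      simp only [if_pos hij]
      by_cases hkj : k < j
      · simp only [if_pos hkj]; exact h2 i hij k hkj hik
      · simp only [if_neg hkj]
        exact (h1 i hij).2.2.2.2.2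

theorem shrinking (ι : E →ₗᵢ[ℝ] XX H) (hι : ∀ x, ι x ∈ WW S P e)
    (hs : ∀ x ∈ WW S P e, ∃ y, ι y = x) (φ : E →L[ℝ] ℝ) {ε : ℝ} (hε : 0 < ε) :
    ∃ m, ∀ x : E, (∀ n, n < m → ι x n = 0) → |φ x| ≤ ε * ‖x‖ := by
  by_contra hcon
  push Not at hcon
  have h1 := sh1 ι hι hs φ hε hcon
  have hε4 : 0 < ε / 4 := by positivity
  obtain ⟨n0, hn0⟩ := exists_nat_gt ((8 * ‖φ‖ / (ε / 4)) ^ 2)
  set n := n0 + 1 with hn
  have hn1 : (1 : ℝ) ≤ n := by rw [hn]; push_cast; linarith [(Nat.cast_nonneg n0 : (0:ℝ) ≤ n0)]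
  have hnp : (0 : ℝ) < n := by linarith
  have hn2 : (8 * ‖φ‖ / (ε / 4)) ^ 2 < n := by rw [hn]; push_cast; linarith
  have hθ : (0 : ℝ) < 1 / n := by positivity
  obtain ⟨p, q, x, d, Q, k1, k2⟩ := sh4 ι φ h1 hθ n
  have hB : Blocks S P (range n) p q d (1 / n) := by
    refine ⟨?_, ?_, ?_, ?_, hθ.le, ?_⟩
    · intro i hi j hj hij
      exact k2 i (by simpa using hi) j (by simpa using hj) hij
    · intro k hk m hm
      exact (k1 k (by simpa using hk)).1 m hm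
    · intro k hk m
      obtain ⟨_, s2, s3, _⟩ := k1 k (by simpa using hk)
      rw [← s2]
      exact ((ι (x k)).norm_coe_le_norm m).trans (by rw [ι.norm_map]; exact s3)
    · intro k hk
      exact (k1 k (by simpa using hk)).2.2.2.2.1
    · rw [card_range]
      have : (1 / (n : ℝ)) ^ 2 * n = 1 / n := by field_simp
      rw [this, div_le_one hnp]
      exact hn1
  have e1 : ‖∑ k ∈ range n, x k‖ ≤ 8 * Real.sqrt n := by
    rw [← ι.norm_map, BoundedContinuousFunction.norm_le (by positivity)]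
    intro m
    have e2 : ι (∑ k ∈ range n, x k) m = G S P m (∑ k ∈ range n, (fun _ => (1 : ℝ)) k • d k) := by
      rw [G_sum, map_sum, BoundedContinuousFunction.sum_apply]
      refine Finset.sum_congr rfl fun k hk => ?_
      rw [(k1 k (by simpa using hk)).2.1, one_smul]
    rw [e2]
    have e3 := upper hB (fun _ => (1 : ℝ)) m
    simpa using e3
  have e2 : (n : ℝ) * (ε / 4) ≤ φ (∑ k ∈ range n, x k) := by
    rw [map_sum]
    have : ∑ k ∈ range n, (ε / 4) ≤ ∑ k ∈ range n, φ (x k) :=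
      Finset.sum_le_sum fun k hk => (k1 k (by simpa using hk)).2.2.2.1
    simpa using this
  have e3 : φ (∑ k ∈ range n, x k) ≤ ‖φ‖ * (8 * Real.sqrt n) := by
    calc φ (∑ k ∈ range n, x k) ≤ ‖φ (∑ k ∈ range n, x k)‖ := Real.le_norm_self _
      _ ≤ ‖φ‖ * ‖∑ k ∈ range n, x k‖ := φ.le_opNorm _
      _ ≤ ‖φ‖ * (8 * Real.sqrt n) := mul_le_mul_of_nonneg_left e1 (norm_nonneg _)
  have hs0 : 0 < Real.sqrt n := Real.sqrt_pos.mpr hnp
  have hs2 : Real.sqrt n * Real.sqrt n = n := Real.mul_self_sqrt hnp.le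
  have e4 : Real.sqrt n * (ε / 4) ≤ 8 * ‖φ‖ := by
    have h5 : Real.sqrt n * (Real.sqrt n * (ε / 4)) ≤ Real.sqrt n * (8 * ‖φ‖) := by
      rw [← mul_assoc, hs2]; linarith
    exact le_of_mul_le_mul_left h5 hs0
  have e5 : Real.sqrt n ≤ 8 * ‖φ‖ / (ε / 4) := by rw [le_div_iff₀ hε4]; exact e4
  have e6 := pow_le_pow_left₀ hs0.le e5 2
  rw [Real.sq_sqrt hnp.le] at e6
  linarith

end Pool.Agent.R268.LInf
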