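import Mathlib
import Pool.Agent.R268.LInf.Shrink

set_option autoImplicit false

/-! The space has no infinite dimensional reflexive quotient. -/

namespace Pool.Agent.R268.LInf

open Finset BoundedContinuousFunction Filter Topology

/-- Ultrafilter limits of bounded functionals. -/
lemma ultralim {F : Type} [NormedAddCommGroup F] [NormedSpace ℝ F] (U : Ultrafilter ℕ)
    (f : ℕ → StrongDual ℝ F) (C : ℝ) (hf : ∀ r, ‖f r‖ ≤ C) :
    ∃ Ψ : StrongDual ℝ F, ∀ x, Tendsto (fun r => f r x) U (𝓝 (Ψ x)) := by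
  have hc := WeakDual.isCompact_closedBall (𝕜 := ℝ) (0 : StrongDual ℝ F) C
  obtain ⟨Ψ, _, hΨ⟩ := hc.ultrafilter_le_nhds (U.map (fun r => StrongDual.toWeakDual (f r)))
    (by
      rw [Ultrafilter.coe_map, Filter.le_principal_iff, Filter.mem_map]
      refine Filter.univ_mem' fun r => ?_
      simpa using hf r)
  refine ⟨WeakDual.toStrongDual Ψ, fun x => ?_⟩
  have h1 : Tendsto (fun r => StrongDual.toWeakDual (f r)) U (𝓝 Ψ) := hΨ
  exact ((WeakDual.eval_continuous x).tendsto Ψ).comp h1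

variable {H : Type} [NormedAddCommGroup H] [InnerProductSpace ℝ H] [CompleteSpace H]
  {S : Sys} {P : Pair H} {e : H}
  {E : Type} [NormedAddCommGroup E] [NormedSpace ℝ E]

/-- The elements determined by the coordinates below `m`. -/
noncomputable def Em (S : Sys) (P : Pair H) (ι : E →ₗᵢ[ℝ] XX H) (m : ℕ) : Submodule ℝ E where
  carrier := {x | ι x = lft S P m (ι x)}
  add_mem' := by
    intro x y hx hy
    change ι (x + y) = lft S P m (ι (x + y))
    have h : ((ι (x + y) : XX H) : ℕ → H) = (ι x : ℕ → H) + (ι y : ℕ → H) := by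
      rw [map_add]; rfl
    rw [h, lft_add, map_add]
    exact congrArg₂ (· + ·) hx hy
  zero_mem' := by
    change ι 0 = lft S P m (ι 0)
    have h : ((ι (0 : E) : XX H) : ℕ → H) = (0 : ℝ) • ((ι (0 : E) : XX H) : ℕ → H) := by
      rw [map_zero]; simp
    rw [h, lft_smul]; simp
  smul_mem' := by
    intro c x hx
    change ι (c • x) = lft S P m (ι (c • x))
    have h : ((ι (c • x) : XX H) : ℕ → H) = c • (ι x : ℕ → H) := by
      rw [map_smul]; rfl
    rw [h, lft_smul, map_smul]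
    exact congrArg (c • ·) hx

lemma mem_Em {ι : E →ₗᵢ[ℝ] XX H} {m : ℕ} {x : E} :
    x ∈ Em S P ι m ↔ ι x = lft S P m (ι x) := Iff.rfl

lemma Em_fin (ι : E →ₗᵢ[ℝ] XX H) (hι : ∀ x, ι x ∈ WW S P e) (m : ℕ) :
    FiniteDimensional ℝ (Em S P ι m) := by
  let c : Em S P ι m →ₗ[ℝ] ((n : Fin m) → Hs S P e n) :=
    LinearMap.pi fun n => LinearMap.codRestrict (Hs S P e n)
      ((BoundedContinuousFunction.evalCLM ℝ (n : ℕ) : XX H →L[ℝ] H).toLinearMap ∘ₗ
        ι.toLinearMap ∘ₗ (Em S P ι m).subtype) (fun x => WW_coord (hι x) n)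
  have hinj : Function.Injective c := by
    rw [← LinearMap.ker_eq_bot, LinearMap.ker_eq_bot']
    intro x hx
    have h1 : ∀ n, n < m → ι (x : E) n = 0 := by
      intro n hn
      exact congrArg Subtype.val (congrFun hx ⟨n, hn⟩)
    have h2 : ι (x : E) = 0 := by
      rw [mem_Em.mp x.2]
      ext1 n
      rw [lft_apply, dco_eq_zero _ h1, map_zero]; rfl
    have h3 : (x : E) = 0 := by
      apply ι.injective
      rw [h2, map_zero]
    exact Subtype.ext h3
  exact Module.Finite.of_injective _ hinj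

lemma lft_lft_le {p q : ℕ} (h : p ≤ q) (z : ℕ → H) :
    lft S P q (lft S P p z) = lft S P p z :=
  pr_of_rep (N := p) (fun m hm => dco_supp p z m hm) (fun n => lft_apply p z n) h

lemma lft_lft_ge {p q : ℕ} (h : p ≤ q) (z : ℕ → H) :
    lft S P p (lft S P q z) = lft S P p z :=
  lft_congr fun m hm => lft_apply_lt z (by omega)

variable {Z : Type} [NormedAddCommGroup Z] [NormedSpace ℝ Z]

lemma dual_inf (hZ : ¬ FiniteDimensional ℝ Z) : ¬ FiniteDimensional ℝ (StrongDual ℝ Z) := by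
  intro h
  apply hZ
  have h1 : FiniteDimensional ℝ (StrongDual ℝ (StrongDual ℝ Z)) := inferInstance
  exact Module.Finite.of_injective (NormedSpace.inclusionInDoubleDualLi (E := Z) ℝ).toLinearMap
    (NormedSpace.inclusionInDoubleDualLi (E := Z) ℝ).injective

/-- One step of the gliding hump. -/
lemma glide (ι : E →ₗᵢ[ℝ] XX H) (hι : ∀ x, ι x ∈ WW S P e)
    (hs : ∀ x ∈ WW S P e, ∃ y, ι y = x) (hZ : ¬ FiniteDimensional ℝ Z) (T : E →L[ℝ] Z)
    (hT : Function.Surjective T) (m : ℕ) (y : E)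
    (hy : y ∈ Em S P ι m ∧ ∀ n, n < m → ‖ι y n‖ ≤ 1) :
    ∃ (m' : ℕ) (y' : E) (g : StrongDual ℝ Z), m < m' ∧
      (y' ∈ Em S P ι m' ∧ ∀ n, n < m' → ‖ι y' n‖ ≤ 1) ∧ (∀ n, n < m → ι y' n = ι y n) ∧
      (∀ x, |g (T x)| ≤ ‖x‖) ∧ (∀ x ∈ Em S P ι m, g (T x) = 0) ∧
      (∀ x : E, (∀ n, n < m' → ι x n = 0) → |g (T x)| ≤ (1 / 40) * ‖x‖) ∧
      9 / 40 ≤ g (T y') := by
  have hfin := Em_fin ι hι m
  -- the functional
  obtain ⟨g0, hg0, hg0'⟩ : ∃ g0 : StrongDual ℝ Z, g0 ≠ 0 ∧ ∀ x ∈ Em S P ι m, g0 (T x) = 0 := by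
    by_contra hcon
    push Not at hcon
    apply dual_inf hZ
    let L : StrongDual ℝ Z →ₗ[ℝ] (Em S P ι m →ₗ[ℝ] ℝ) :=
      { toFun := fun g => g.toLinearMap ∘ₗ T.toLinearMap ∘ₗ (Em S P ι m).subtype
        map_add' := fun g g' => rfl
        map_smul' := fun c g => rfl }
    have hinj : Function.Injective L := by
      rw [← LinearMap.ker_eq_bot, LinearMap.ker_eq_bot']
      intro g hg
      by_contra hne
      obtain ⟨x, hx, hx'⟩ := hcon g hne
      exact hx' (LinearMap.congr_fun hg ⟨x, hx⟩)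
    exact Module.Finite.of_injective L hinj
  set φ0 : E →L[ℝ] ℝ := g0 ∘L T with hφ0
  have hφ0n : φ0 ≠ 0 := by
    intro h
    apply hg0
    ext z
    obtain ⟨x, rfl⟩ := hT z
    exact congrArg (fun f : E →L[ℝ] ℝ => f x) h
  have hφ0p : 0 < ‖φ0‖ := norm_pos_iff.mpr hφ0n
  set g : StrongDual ℝ Z := ‖φ0‖⁻¹ • g0 with hg
  set φ : E →L[ℝ] ℝ := ‖φ0‖⁻¹ • φ0 with hφ
  have hgφ : ∀ x, g (T x) = φ x := fun x => rfl
  have hφ1 : ‖φ‖ = 1 := by
    rw [hφ, norm_smul, norm_inv, norm_norm, inv_mul_cancel₀ hφ0p.ne']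
  have hφx : ∀ x, |φ x| ≤ ‖x‖ := by
    intro x
    have := φ.le_opNorm x
    rwa [hφ1, one_mul, Real.norm_eq_abs] at this
  have hφm : ∀ x ∈ Em S P ι m, φ x = 0 := by
    intro x hx
    rw [← hgφ]
    change ‖φ0‖⁻¹ * g0 (T x) = 0
    rw [hg0' x hx, mul_zero]
  obtain ⟨m1, hm1⟩ := shrinking ι hι hs φ (ε := 1 / 40) (by norm_num)
  set m' := max m1 (m + 1) with hm'
  have hmm' : m < m' := lt_of_lt_of_le (Nat.lt_succ_self m) (le_max_right _ _)
  have hsmall : ∀ x : E, (∀ n, n < m' → ι x n = 0) → |φ x| ≤ (1 / 40) * ‖x‖ := fun x hx =>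
    hm1 x (fun n hn => hx n (lt_of_lt_of_le hn (le_max_left _ _)))
  -- a norming vector
  obtain ⟨x, hx1, hx2⟩ : ∃ x : E, ‖x‖ ≤ 1 ∧ 3 / 4 ≤ φ x := by
    obtain ⟨x, hx1, hx2⟩ := φ.exists_lt_apply_of_lt_opNorm (r := 3 / 4) (by rw [hφ1]; norm_num)
    rcases le_or_gt 0 (φ x) with h | h
    · exact ⟨x, hx1.le, by rw [Real.norm_of_nonneg h] at hx2; exact hx2.le⟩
    · refine ⟨-x, by rw [norm_neg]; exact hx1.le, ?_⟩
      rw [map_neg]
      rw [Real.norm_of_nonpos h.le] at hx2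
      exact hx2.le
  have hW : ∀ (p : ℕ) (z : XX H), z ∈ WW S P e → ∃ w : E, ι w = lft S P p z := fun p z hz =>
    hs _ (W0_le (lft_mem (fun k _ => WW_coord hz k)))
  obtain ⟨x1, hx1e⟩ := hW m' (ι x) (hι x)
  obtain ⟨x2, hx2e⟩ := hW m (ι x) (hι x)
  have hx2m : x2 ∈ Em S P ι m := by
    rw [mem_Em, hx2e, lft_lft_le le_rfl]
  have hu : 27 / 40 ≤ φ (x1 - x2) := by
    have h1 : |φ (x - x1)| ≤ (1 / 40) * ‖x - x1‖ := by
      apply hsmall
      intro n hn
      rw [map_sub, BoundedContinuousFunction.sub_apply, hx1e, lft_apply_lt _ hn, sub_self]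
    have h2 : ‖x - x1‖ ≤ 3 := by
      have h3 : ‖x1‖ ≤ 2 := by
        rw [← ι.norm_map, hx1e]
        refine (pr_norm_le m' (ι x)).trans ?_
        rw [ι.norm_map]; linarith
      exact (norm_sub_le _ _).trans (by linarith)
    have h3 : φ (x1 - x2) = φ x - φ (x - x1) - φ x2 := by
      rw [map_sub, map_sub]; ring
    rw [h3, hφm x2 hx2m]
    have := (abs_le.mp h1).2
    linarith
  set u := x1 - x2 with hudef
  have hum : u ∈ Em S P ι m' := by
    apply Submodule.sub_mem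
    · rw [mem_Em, hx1e, lft_lft_le le_rfl]
    · rw [mem_Em, hx2e, lft_lft_le hmm'.le]
  have hu0 : ∀ n, n < m → ι u n = 0 := by
    intro n hn
    rw [hudef, map_sub, BoundedContinuousFunction.sub_apply, hx1e, hx2e,
      lft_apply_lt _ (by omega), lft_apply_lt _ hn, sub_self]
  have hu1 : ∀ n, n < m' → ‖ι u n‖ ≤ 3 := by
    intro n hn
    rw [hudef, map_sub, BoundedContinuousFunction.sub_apply, hx1e, hx2e, lft_apply_lt _ hn]
    have h1 : ‖ι x n‖ ≤ 1 := ((ι x).norm_coe_le_norm n).trans (by rw [ι.norm_map]; exact hx1)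
    have h2 : ‖lft S P m (ι x) n‖ ≤ 2 := by
      refine ((lft S P m (ι x)).norm_coe_le_norm n).trans ((pr_norm_le m (ι x)).trans ?_)
      rw [ι.norm_map]; linarith
    exact (norm_sub_le _ _).trans (by linarith)
  -- the extension of `y` with zero coordinates
  obtain ⟨y0, hy0⟩ : ∃ w : E, ι w = lft S P m' (fun n => if n < m then ι y n else 0) := by
    apply hs
    apply W0_le
    apply lft_mem
    intro k _
    split_ifs
    · exact WW_coord (hι y) k
    · exact Submodule.zero_mem _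
  have hy0m : y0 ∈ Em S P ι m' := by rw [mem_Em, hy0, lft_lft_le le_rfl]
  have hy0c : ∀ n, n < m' → ι y0 n = if n < m then ι y n else 0 := by
    intro n hn
    rw [hy0, lft_apply_lt _ hn]
  have fin : ∀ t : ℝ, |t| = 1 / 3 → (y0 + t • u ∈ Em S P ι m' ∧
      ∀ n, n < m' → ‖ι (y0 + t • u) n‖ ≤ 1) ∧ ∀ n, n < m → ι (y0 + t • u) n = ι y n := by
    intro t ht
    have hc : ∀ n, ι (y0 + t • u) n = ι y0 n + t • ι u n := by
      intro n
      rw [map_add, map_smul, BoundedContinuousFunction.add_apply,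
        BoundedContinuousFunction.smul_apply]
    refine ⟨⟨Submodule.add_mem _ hy0m (Submodule.smul_mem _ _ hum), fun n hn => ?_⟩,
      fun n hn => ?_⟩
    · rw [hc, hy0c n hn]
      split_ifs with h
      · rw [hu0 n h, smul_zero, add_zero]
        exact hy.2 n h
      · rw [zero_add, norm_smul, Real.norm_eq_abs, ht]
        have := hu1 n hn
        linarith
    · rw [hc, hy0c n (by omega), if_pos hn, hu0 n hn, smul_zero, add_zero]
  rcases le_or_gt 0 (φ y0) with h | h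
  · obtain ⟨f1, f2⟩ := fin (1 / 3) (by norm_num)
    refine ⟨m', y0 + (1 / 3 : ℝ) • u, g, hmm', f1, f2, fun x => by rw [hgφ]; exact hφx x,
      fun x hx => by rw [hgφ]; exact hφm x hx, fun x hx => by rw [hgφ]; exact hsmall x hx, ?_⟩
    rw [hgφ, map_add, map_smul, smul_eq_mul]
    linarith
  · obtain ⟨f1, f2⟩ := fin (-(1 / 3)) (by norm_num)
    have hng : ∀ x, (-g) (T x) = -φ x := fun x => rfl
    refine ⟨m', y0 + (-(1 / 3) : ℝ) • u, -g, hmm', f1, f2,
      fun x => by rw [hng, abs_neg]; exact hφx x,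
      fun x hx => by rw [hng, hφm x hx, neg_zero],
      fun x hx => by rw [hng, abs_neg]; exact hsmall x hx, ?_⟩
    rw [hng, map_add, map_smul, smul_eq_mul]
    linarith

theorem no_refl [CompleteSpace E] [CompleteSpace Z] (ι : E →ₗᵢ[ℝ] XX H)
    (hι : ∀ x, ι x ∈ WW S P e) (hs : ∀ x ∈ WW S P e, ∃ y, ι y = x)
    (hZ : ¬ FiniteDimensional ℝ Z)
    (hrefl : Function.Surjective (NormedSpace.inclusionInDoubleDual ℝ Z)) (T : E →L[ℝ] Z)
    (hT : Function.Surjective T) : False := by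
  classical
  let σ : Type := {a : ℕ × E // a.2 ∈ Em S P ι a.1 ∧ ∀ n, n < a.1 → ‖ι a.2 n‖ ≤ 1}
  have step : ∀ a : σ, ∃ (b : σ) (g : StrongDual ℝ Z), a.1.1 < b.1.1 ∧
      (∀ n, n < a.1.1 → ι b.1.2 n = ι a.1.2 n) ∧
      (∀ x, |g (T x)| ≤ ‖x‖) ∧ (∀ x ∈ Em S P ι a.1.1, g (T x) = 0) ∧
      (∀ x : E, (∀ n, n < b.1.1 → ι x n = 0) → |g (T x)| ≤ (1 / 40) * ‖x‖) ∧
      9 / 40 ≤ g (T b.1.2) := by
    intro a
    obtain ⟨m', y', g, h1, h2, h3, h4, h5, h6, h7⟩ := glide ι hι hs hZ T hT a.1.1 a.1.2 a.2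
    exact ⟨⟨(m', y'), h2⟩, g, h1, h3, h4, h5, h6, h7⟩
  choose nx gx hx1 hx2 hx3 hx4 hx5 hx6 using step
  let s0 : σ := ⟨(0, 0), Submodule.zero_mem _, fun n hn => absurd hn (Nat.not_lt_zero n)⟩
  let s : ℕ → σ := fun k => Nat.rec s0 (fun _ a => nx a) k
  have hsucc : ∀ k, s (k + 1) = nx (s k) := fun k => rfl
  set m : ℕ → ℕ := fun k => (s k).1.1 with hm
  set y : ℕ → E := fun k => (s k).1.2 with hy
  set g : ℕ → StrongDual ℝ Z := fun k => gx (s k) with hg
  have hmlt : ∀ k, m k < m (k + 1) := fun k => hx1 (s k)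
  have hmono : StrictMono m := strictMono_nat_of_lt_succ hmlt
  have hmk : ∀ k, k ≤ m k := fun k => hmono.le_apply
  have hyc : ∀ k r, k ≤ r → ∀ n, n < m k → ι (y r) n = ι (y k) n := by
    intro k r hkr n hn
    induction r with
    | zero =>
      have : k = 0 := by omega
      rw [this]
    | succ r ih =>
      rcases Nat.lt_or_ge r k with h | h
      · have : k = r + 1 := by omega
        rw [this]
      · rw [← ih h]
        exact hx2 (s r) n (lt_of_lt_of_le hn (hmono.monotone h))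
  have hyn : ∀ r, ‖y r‖ ≤ 2 := by
    intro r
    rw [← ι.norm_map, mem_Em.mp (s r).2.1]
    have := lft_norm_le (S := S) (P := P) (p := m r) (z := ι (y r)) (M := 1) (by norm_num)
      (fun k hk => (s r).2.2 k hk)
    linarith
  have hgy : ∀ k r, k + 1 ≤ r → 1 / 8 ≤ g k (T (y r)) := by
    intro k r hkr
    have h1 : |g k (T (y r - y (k + 1)))| ≤ (1 / 40) * ‖y r - y (k + 1)‖ := by
      apply hx5 (s k)
      intro n hn
      rw [map_sub, BoundedContinuousFunction.sub_apply, hyc (k + 1) r hkr n hn, sub_self]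
    have h2 : ‖y r - y (k + 1)‖ ≤ 4 :=
      (norm_sub_le _ _).trans (by linarith [hyn r, hyn (k + 1)])
    have h3 : 9 / 40 ≤ g k (T (y (k + 1))) := hx6 (s k)
    have h4 : g k (T (y r)) = g k (T (y (k + 1))) + g k (T (y r - y (k + 1))) := by
      rw [map_sub, map_sub]; ring
    rw [h4]
    have := (abs_le.mp h1).1
    linarith
  -- bounds for the functionals
  obtain ⟨C, hC0, hC⟩ := T.exists_preimage_norm_le hT
  have hgC : ∀ k, ‖g k‖ ≤ C := by
    intro k
    refine ContinuousLinearMap.opNorm_le_bound _ hC0.le fun z => ?_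
    obtain ⟨x, rfl, hx⟩ := hC z
    rw [Real.norm_eq_abs]
    exact (hx3 (s k) x).trans hx
  let U : Ultrafilter ℕ := Filter.hyperfilter ℕ
  have hU : ∀ k : ℕ, ∀ᶠ r in (U : Filter ℕ), k ≤ r := by
    intro k
    have h1 : (U : Filter ℕ) ≤ atTop := Nat.hyperfilter_le_atTop
    exact h1 (eventually_ge_atTop k)
  obtain ⟨Ψ, hΨ⟩ := ultralim U (fun r => NormedSpace.inclusionInDoubleDual ℝ Z (T (y r)))
    (‖T‖ * 2) (fun r => by
      refine (NormedSpace.double_dual_bound ℝ Z (T (y r))).trans ?_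
      exact (T.le_opNorm _).trans (mul_le_mul_of_nonneg_left (hyn r) (norm_nonneg _)))
  obtain ⟨ρ, hρ⟩ := hrefl Ψ
  have hρg : ∀ k, 1 / 8 ≤ g k ρ := by
    intro k
    have h1 := hΨ (g k)
    rw [← hρ] at h1
    refine ge_of_tendsto h1 ?_
    filter_upwards [hU (k + 1)] with r hr
    exact hgy k r hr
  obtain ⟨gi, hgi⟩ := ultralim U g C hgC
  have h8 : 1 / 8 ≤ gi ρ := ge_of_tendsto (hgi ρ) (Filter.Eventually.of_forall hρg)
  obtain ⟨x, hx⟩ := hT ρ
  have h9 : gi (T x) = 0 := by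
    have h10 : ∀ ε > 0, |gi (T x)| ≤ ‖gi‖ * ‖T‖ * ε := by
      intro ε hε
      obtain ⟨N, hN⟩ := pr_tendsto (hι x) hε
      obtain ⟨x', hx'⟩ := hs (lft S P N (ι x))
        (W0_le (lft_mem (fun k _ => WW_coord (hι x) k)))
      have h11 : gi (T x') = 0 := by
        refine tendsto_nhds_unique (hgi (T x')) ?_
        refine (tendsto_const_nhds (x := (0 : ℝ))).congr' ?_
        filter_upwards [hU N] with k hk
        symm
        apply hx4 (s k)
        rw [mem_Em, hx', lft_lft_le (hk.trans (hmk k))]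
      have h12 : gi (T x) = gi (T (x - x')) := by rw [map_sub, map_sub, h11, sub_zero]
      have h13 : ‖x - x'‖ ≤ ε := by
        rw [← ι.norm_map, map_sub, hx']
        exact hN N le_rfl
      rw [h12, ← Real.norm_eq_abs]
      calc ‖gi (T (x - x'))‖ ≤ ‖gi‖ * ‖T (x - x')‖ := gi.le_opNorm _
        _ ≤ ‖gi‖ * (‖T‖ * ‖x - x'‖) :=
            mul_le_mul_of_nonneg_left (T.le_opNorm _) (norm_nonneg _)
        _ ≤ ‖gi‖ * (‖T‖ * ε) := by gcongr
        _ = ‖gi‖ * ‖T‖ * ε := by ring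
    have h14 : |gi (T x)| ≤ 0 := by
      have hK : 0 ≤ ‖gi‖ * ‖T‖ := by positivity
      refine le_of_forall_pos_le_add fun ε hε => ?_
      have := h10 (ε / (‖gi‖ * ‖T‖ + 1)) (by positivity)
      refine this.trans ?_
      rw [zero_add, mul_div_assoc', div_le_iff₀ (by positivity)]
      nlinarith
    exact abs_eq_zero.mp (le_antisymm h14 (abs_nonneg _))
  rw [hx] at h9
  linarith

end Pool.Agent.R268.LInf
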