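import Mathlib
import Pool.Agent.R268.LInf.NoRefl
import Pool.Agent.R268.LInf.NoLinf

set_option autoImplicit false

/-! The Banach space of the counterexample. -/

namespace Pool.Agent.R268.LInf

open Finset BoundedContinuousFunction Filter Topology

lemma inf_dim {H : Type} [NormedAddCommGroup H] [InnerProductSpace ℝ H] [CompleteSpace H]
    {S : Sys} {P : Pair H} {e : H} (he : e ≠ 0)
    {E : Type} [NormedAddCommGroup E] [NormedSpace ℝ E] (ι : E →ₗᵢ[ℝ] XX H)
    (hs : ∀ x ∈ WW S P e, ∃ y, ι y = x) : ¬ FiniteDimensional ℝ E := by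
  classical
  intro hfin
  let K : ℕ →o (Submodule ℝ E)ᵒᵈ :=
    { toFun := fun m => OrderDual.toDual
        { carrier := {x | ∀ n, n < m → ι x n = 0}
          add_mem' := by
            intro x y hx hy n hn
            rw [map_add, BoundedContinuousFunction.add_apply, hx n hn, hy n hn, add_zero]
          zero_mem' := by
            intro n _
            rw [map_zero]; rfl
          smul_mem' := by
            intro c x hx n hn
            rw [map_smul, BoundedContinuousFunction.smul_apply, hx n hn, smul_zero] }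
      monotone' := by
        intro a b hab
        rw [OrderDual.toDual_le_toDual]
        intro x hx n hn
        exact hx n (lt_of_lt_of_le hn hab) }
  have hmem : ∀ m (x : E), x ∈ OrderDual.ofDual (K m) ↔ ∀ n, n < m → ι x n = 0 :=
    fun m x => Iff.rfl
  obtain ⟨N, hN⟩ := IsArtinian.monotone_stabilizes K
  obtain ⟨n, hn, hnd⟩ := S.inf0 N
  -- the vector of the start node `n`
  have hd : ∀ m, n + 1 ≤ m → (Pi.single n e : ℕ → H) m = 0 := fun m hm =>
    Pi.single_eq_of_ne (by omega) _
  obtain ⟨x, hx⟩ := exists_rep (S := S) (P := P) hd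
  have hxW : x ∈ WW S P e := by
    refine W0_le ⟨Pi.single n e, ⟨n + 1, hd⟩, fun m => ?_, hx⟩
    by_cases h : m = n
    · subst h
      rw [Pi.single_eq_same, Hs_none S P e hnd]
      exact Submodule.mem_span_singleton_self e
    · rw [Pi.single_eq_of_ne h]
      exact Submodule.zero_mem _
  obtain ⟨y, hy⟩ := hs x hxW
  have hy0 : y ∈ OrderDual.ofDual (K N) := by
    rw [hmem]
    intro k hk
    rw [hy, hx]
    exact G_zero k _ (fun m hm => Pi.single_eq_of_ne (by omega) _)
  have hy1 : y ∈ OrderDual.ofDual (K (n + 1)) := by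
    rw [← hN (n + 1) (by omega)]; exact hy0
  have h1 := (hmem _ _).mp hy1 n (Nat.lt_succ_self n)
  rw [hy, hx, G_none S P hnd, Pi.single_eq_same] at h1
  exact he h1

theorem exists_space : ∃ (E : Type) (_ : NormedAddCommGroup E) (_ : NormedSpace ℝ E)
    (_ : CompleteSpace E) (ι : E →ₗᵢ[ℝ] XX HH), (∀ x, ι x ∈ WW sys pair e0) ∧
      ∀ x ∈ WW sys pair e0, ∃ y, ι y = x := by
  have hc : CompleteSpace (WW sys pair e0) :=
    (WW_closed (S := sys) (P := pair) (e := e0)).completeSpace_coe
  exact ⟨WW sys pair e0, inferInstance, inferInstance, hc, (WW sys pair e0).subtypeₗᵢ,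
    fun x => x.2, fun x hx => ⟨⟨x, hx⟩, rfl⟩⟩

end Pool.Agent.R268.LInf
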